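import Pool.Agent.LibMF6.CDefs

set_option autoImplicit false

/-! Definitions for finite maps of corank at most one in presented form (MP_ed98ad_ag): the source ring is `O[x]/(P, Q)`. -/

namespace Pool.Agent.LibMX10

open Polynomial

section

variable (R : Type*) [CommRing R] {N : ℕ}

/-- the source ring `O[x]/(P, Q)` of the (multi)germ of map to the space with ring `O = R[[y_1..y_N]]` -/
abbrev Src (P Q : (MvPowerSeries (Fin N) R)[X]) : Type _ :=
  (MvPowerSeries (Fin N) R)[X] ⧸ Ideal.span {P, Q}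

/-- the class of a polynomial -/
noncomputable abbrev cl (P Q : (MvPowerSeries (Fin N) R)[X]) (H : (MvPowerSeries (Fin N) R)[X]) : Src R P Q :=
  Ideal.Quotient.mk (Ideal.span {P, Q}) H

/-- the components of the map, `f^*(y_j)` -/
noncomputable abbrev yS (P Q : (MvPowerSeries (Fin N) R)[X]) (j : Fin N) : Src R P Q :=
  cl R P Q (C (MvPowerSeries.X j))

/-- `tf(θ)`: the vector fields along the map which are the image `(D(y_j))_j` of a vector field (`R`-derivation) `D` of the source -/
noncomputable def tfX (P Q : (MvPowerSeries (Fin N) R)[X]) : Submodule R (Fin N → Src R P Q) where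
  carrier := {ξ | ∃ D : Derivation R (Src R P Q) (Src R P Q), ∀ j, ξ j = D (yS R P Q j)}
  add_mem' := by
    rintro ξ η ⟨D, hD⟩ ⟨E, hE⟩
    exact ⟨D + E, fun j => by rw [Pi.add_apply, hD, hE]; rfl⟩
  zero_mem' := ⟨0, fun j => rfl⟩
  smul_mem' := by
    rintro c ξ ⟨D, hD⟩
    exact ⟨c • D, fun j => by rw [Pi.smul_apply, hD]; rfl⟩

/-- `ωf(θ)`: the vector fields along the map which are pulled back from the target -/
noncomputable def wfX (P Q : (MvPowerSeries (Fin N) R)[X]) : Submodule R (Fin N → Src R P Q) where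
  carrier := {ξ | ∃ η : Fin N → MvPowerSeries (Fin N) R, ∀ j, ξ j = cl R P Q (C (η j))}
  add_mem' := by
    rintro ξ η ⟨D, hD⟩ ⟨E, hE⟩
    exact ⟨D + E, fun j => by
      rw [Pi.add_apply, hD, hE, Pi.add_apply, C_add]
      exact (map_add (Ideal.Quotient.mk (Ideal.span {P, Q})) _ _).symm⟩
  zero_mem' := ⟨0, fun j => by simp⟩
  smul_mem' := by
    rintro c ξ ⟨D, hD⟩
    refine ⟨c • D, fun j => ?_⟩
    rw [Pi.smul_apply, hD, Pi.smul_apply, ← smul_C]
    rfl

/-- `θ(f) / (tf(θ) + ωf(θ))` -/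
abbrev T1X (P Q : (MvPowerSeries (Fin N) R)[X]) := (Fin N → Src R P Q) ⧸ (tfX R P Q ⊔ wfX R P Q)

/-- apply `∂/∂y_j` to the coefficients -/
noncomputable abbrev dj (j : Fin N) (H : (MvPowerSeries (Fin N) R)[X]) : (MvPowerSeries (Fin N) R)[X] :=
  Pool.Agent.LibMF6.dC (fun z => MvPowerSeries.pderiv R j z) H

/-- Jacobian criterion: `P`, `Q` and the maximal minors of the Jacobian matrix generate the unit ideal -/
def IsSm (P Q : (MvPowerSeries (Fin N) R)[X]) : Prop :=
  Ideal.span ({P, Q} ∪ {z | ∃ i j : Fin N, z = dj R i P * dj R j Q - dj R j P * dj R i Q} ∪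
    {z | ∃ j : Fin N, z = dj R j P * derivative Q - derivative P * dj R j Q}) = ⊤

/-- the same, in `X^2`: every vector is a combination of the columns of the Jacobian matrix -/
def IsSm2 (P Q : (MvPowerSeries (Fin N) R)[X]) : Prop :=
  ∀ u v : Src R P Q, ∃ (ξ : Fin N → Src R P Q) (ζ : Src R P Q),
    (∑ j, ξ j * cl R P Q (dj R j P)) + ζ * cl R P Q (derivative P) = u ∧
    (∑ j, ξ j * cl R P Q (dj R j Q)) + ζ * cl R P Q (derivative Q) = v

/-- the relations in `X^2` (components `e_1`, `e_2`) -/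
noncomputable def NX (P Q : (MvPowerSeries (Fin N) R)[X]) : Submodule R (Fin 2 → Src R P Q) :=
  Submodule.span R {v | (∃ c : Src R P Q, v = ![-(c * cl R P Q (derivative Q)), c * cl R P Q (derivative P)]) ∨
    ∃ (j : Fin N) (h : MvPowerSeries (Fin N) R), v = ![cl R P Q (C h) * cl R P Q (dj R j Q),
      -(cl R P Q (C h) * cl R P Q (dj R j P))]}

end

end Pool.Agent.LibMX10
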