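import Pool.Agent.LibMF6.GB
import Pool.Agent.LibMF6.B10
import Pool.Agent.LibMC34.Core

set_option autoImplicit false

/-! The core theorem for the module `VV P / WM`: if powers of the `y_i` map `V` into `WM + s V` then `s` is regular on `V / WM`. -/

namespace Pool.Agent.LibMX10

open Polynomial Pool.Agent.LibMF6

private theorem HC_ofList (k : Type) [Field k] (N : ℕ) (j : ℕ) :
    Ideal.ofList (List.take (j + 1) (Pool.Agent.LibMF6.sO k N ::
      List.ofFn (fun i : Fin N => (MvPowerSeries.X i : MvPowerSeries (Fin N) (PowerSeries k))))) =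
    Ideal.span (insert (Pool.Agent.LibMF6.sO k N) {z | ∃ i : Fin N, i.val < j ∧ z = MvPowerSeries.X i}) := by
  unfold Ideal.ofList
  congr 1
  ext z
  rw [Set.mem_ofPred_eq, List.take_succ_cons, List.mem_cons, Set.mem_insert_iff]
  refine or_congr Iff.rfl ?_
  rw [List.mem_iff_getElem]
  constructor
  · rintro ⟨i, hi, rfl⟩
    rw [List.length_take, List.length_ofFn, lt_min_iff] at hi
    refine ⟨⟨i, hi.2⟩, hi.1, ?_⟩
    rw [List.getElem_take, List.getElem_ofFn]
  · rintro ⟨i, hi, rfl⟩
    refine ⟨i.val, ?_, ?_⟩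
    · rw [List.length_take, List.length_ofFn, lt_min_iff]
      exact ⟨hi, i.isLt⟩
    · rw [List.getElem_take, List.getElem_ofFn]

theorem weakly_regular (k : Type) [Field k] (N : ℕ) :
    RingTheory.Sequence.IsWeaklyRegular (MvPowerSeries (Fin N) (PowerSeries k)) (Pool.Agent.LibMF6.sO k N ::
      List.ofFn (fun i : Fin N => (MvPowerSeries.X i : MvPowerSeries (Fin N) (PowerSeries k)))) := by
  refine ⟨fun i hi => ?_⟩
  match i, hi with
  | 0, hi =>
    have h1 : IsSMulRegular (MvPowerSeries (Fin N) (PowerSeries k)) (Pool.Agent.LibMF6.sO k N) := by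
      rw [isSMulRegular_iff_right_eq_zero_of_smul]
      intro a ha
      exact reg_s k N a ha
    rw [isSMulRegular_quotient_iff_mem_of_smul_mem]
    intro a ha
    rw [List.take_zero, Ideal.ofList_nil, Submodule.bot_smul, Submodule.mem_bot] at ha ⊢
    exact reg_s k N a ha
  | j + 1, hi =>
    rw [isSMulRegular_quotient_iff_mem_of_smul_mem]
    intro a ha
    rw [HC_ofList, smul_eq_mul, Ideal.mul_top] at ha ⊢
    have hj : j < N := by
      simpa using hi
    have h1 := reg_y k N ⟨j, hj⟩ a
    refine h1 ?_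
    simpa [List.getElem_ofFn] using ha

theorem hcore (k : Type) [Field k] {N : ℕ} (hN : 2 ≤ N) (P Q : (MvPowerSeries (Fin N) (PowerSeries k))[X]) (hP : P.Monic)
    (hm : 0 < P.natDegree) (hQ : Q.degree < P.degree) (l : Fin N → MvPowerSeries (Fin N) (PowerSeries k))
    (h : ∀ i : Fin N, ∃ e : ℕ, ∀ v : VV P,
        ((MvPowerSeries.X i : MvPowerSeries (Fin N) (PowerSeries k)) ^ e) • v ∈
          WM P Q hP (fun j z => MvPowerSeries.pderiv (PowerSeries k) j z) l ⊔ sTop P) :
    ∀ v : VV P, Pool.Agent.LibMF6.sO k N • v ∈ WM P Q hP (fun j z => MvPowerSeries.pderiv (PowerSeries k) j z) l →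
        v ∈ WM P Q hP (fun j z => MvPowerSeries.pderiv (PowerSeries k) j z) l := by
  obtain ⟨g, Θ, hΘ⟩ := gram P Q hP hm (fun j z => MvPowerSeries.pderiv (PowerSeries k) j z) l
  have hmem : ∀ v : VV P, Θ v ∈ Submodule.span (MvPowerSeries (Fin N) (PowerSeries k)) (Set.range
      (Pool.Agent.LibMC34.rels P.natDegree (N + (P.natDegree - 1)) P ![Q, derivative P, derivative Q] g)) ↔
      v ∈ WM P Q hP (fun j z => MvPowerSeries.pderiv (PowerSeries k) j z) l := by
    intro v
    rw [← hΘ]
    constructor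
    · rintro ⟨w, hw, hwv⟩
      have : w = v := Θ.injective hwv
      rw [← this]
      exact hw
    · intro hv
      exact ⟨v, hv, rfl⟩
  have hPdeg : P.degree = (P.natDegree : WithBot ℕ) := degree_eq_natDegree hP.ne_zero
  have hcore := Pool.Agent.LibMC34.core k (A := MvPowerSeries (Fin N) (PowerSeries k)) P.natDegree
    (N + (P.natDegree - 1)) N hm hN (by omega) P hP rfl ![Q, derivative P, derivative Q] (by
      intro c
      fin_cases c
      · exact hPdeg ▸ hQ
      · change (derivative P).degree < _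
        rw [← hPdeg]
        exact degree_derivative_lt hP.ne_zero
      · change (derivative Q).degree < _
        rw [← hPdeg]
        exact lt_of_le_of_lt degree_derivative_le hQ) g (Pool.Agent.LibMF6.sO k N)
    (fun i => (MvPowerSeries.X i : MvPowerSeries (Fin N) (PowerSeries k))) (weakly_regular k N) (by
      intro i
      obtain ⟨e, he⟩ := h i
      refine ⟨e, fun y => ?_⟩
      obtain ⟨w, hw, z, hz, hwz⟩ := Submodule.mem_sup.mp (he (Θ.symm y))
      obtain ⟨u, rfl⟩ := hz
      refine ⟨Θ u, ?_⟩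
      have h1 : ((MvPowerSeries.X i : MvPowerSeries (Fin N) (PowerSeries k)) ^ e) • y -
          Pool.Agent.LibMF6.sO k N • Θ u = Θ w := by
        have h2 := congrArg Θ hwz
        rw [map_add, map_smul, LinearEquiv.apply_symm_apply] at h2
        rw [← h2]
        change Θ w + Θ (Pool.Agent.LibMF6.sO k N • u) - _ = _
        rw [map_smul, add_sub_cancel_right]
      rw [h1, hmem]
      exact hw)
  intro v hv
  rw [← hmem] at hv ⊢
  rw [map_smul] at hv
  exact hcore (Θ v) hv

end Pool.Agent.LibMX10
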