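import Pool.Agent.LibMX10.Defs
import Pool.Agent.LibMF6.A0

set_option autoImplicit false

/-! ROW X1 (MEDIUM, Defs, LibMF6.A0). Chain rule for R-derivations of X = O[x]/(P, Q), O = R[[y_1..y_N]], R Noetherian local, P monic.
 Model with complete proof: LibMC10/L2.lean (deriv_eq; there R = k and π : MvPowerSeries σ k → D).
PLAN. Let 𝔶 = Ideal.span (Set.range MvPowerSeries.X) of O (the ideal of the variables; f ∈ 𝔶 iff constantCoeff f = 0), 𝔶 ≤ maximal ideal of O (local ring).
 X is a finite O-module (it is a quotient of AdjoinRoot P, P monic: Polynomial.Monic.finite_adjoinRoot / finite_quotient; or: every class has a representative H %ₘ P),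
 so ⨅ K, 𝔶^K • ⊤ = ⊥ in X (Krull: Ideal.iInf_pow_smul_eq_bot_of_isLocalRing).
 Step 1, H = C c, c ∈ O: E c := D (cl (C c)) - ∑ j, cl (C (pderiv j c)) * D (yS j) is additive, R-linear, E (c c') = cl (C c) E c' + cl (C c') E c, E (X j) = 0, so E vanishes on polynomials in the y_j
   (MvPolynomial.induction_on, coe) and maps 𝔶^(K+1) into 𝔶^K • ⊤. Every c is a polynomial + an element of 𝔶^(K+1) (as in L2). Hence E = 0.
 Step 2: both sides are additive in H; for H = C c * X^i use Leibniz (Polynomial.induction_on' , monomial). coeff_dC, dC_mul, dC_C, dC_X are in A0 (D := MvPowerSeries.pderiv R j as a derivation). -/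

namespace Pool.Agent.LibMX10

open Polynomial

private theorem X1_span {R : Type*} [CommRing R] {σ : Type*} (T : Finset σ) :
    ∀ f : MvPowerSeries σ R, (∀ e, MvPowerSeries.coeff e f ≠ 0 → ∃ j ∈ T, e j ≠ 0) →
      f ∈ Ideal.span (Set.range (MvPowerSeries.X : σ → MvPowerSeries σ R)) := by
  classical
  induction T using Finset.induction_on with
  | empty =>
    intro f h
    have h0 : f = 0 := by
      ext e
      by_contra h1
      rw [MvPowerSeries.coeff_zero] at h1
      obtain ⟨j, hj, _⟩ := h e h1
      exact absurd hj (Finset.notMem_empty j)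
    rw [h0]
    exact zero_mem _
  | insert j T hj ih =>
    intro f h
    obtain ⟨f1, hc⟩ : ∃ f1 : MvPowerSeries σ R, ∀ e, MvPowerSeries.coeff e f1 =
        if e j = 0 then MvPowerSeries.coeff e f else 0 :=
      ⟨fun e => if e j = 0 then MvPowerSeries.coeff e f else 0, fun e => rfl⟩
    have h1 : f1 ∈ Ideal.span (Set.range (MvPowerSeries.X : σ → MvPowerSeries σ R)) := by
      apply ih
      intro e he
      rw [hc] at he
      by_cases h2 : e j = 0
      · rw [if_pos h2] at he
        obtain ⟨i, hi, hi'⟩ := h e he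
        rcases Finset.mem_insert.1 hi with h3 | h3
        · rw [h3] at hi'
          exact absurd h2 hi'
        · exact ⟨i, h3, hi'⟩
      · rw [if_neg h2] at he
        exact absurd rfl he
    have h2 : (MvPowerSeries.X j : MvPowerSeries σ R) ∣ f - f1 := by
      rw [MvPowerSeries.X_dvd_iff]
      intro e he
      rw [map_sub, hc, if_pos he, sub_self]
    obtain ⟨g, hg⟩ := h2
    have h3 : f = f1 + MvPowerSeries.X j * g := by
      rw [← hg]
      ring
    rw [h3]
    exact Ideal.add_mem _ h1 (Ideal.mul_mem_right _ _ (Ideal.subset_span ⟨j, rfl⟩))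

private theorem X1_mem {R : Type*} [CommRing R] {σ : Type*} [Fintype σ] (f : MvPowerSeries σ R) :
    f - MvPowerSeries.C (MvPowerSeries.constantCoeff f) ∈
      Ideal.span (Set.range (MvPowerSeries.X : σ → MvPowerSeries σ R)) := by
  classical
  apply X1_span Finset.univ
  intro e he
  by_contra h
  push Not at h
  apply he
  have h1 : e = 0 := by
    ext j
    exact h j (Finset.mem_univ j)
  rw [h1, MvPowerSeries.coeff_zero_eq_constantCoeff, map_sub, MvPowerSeries.constantCoeff_C,
    sub_self]

/-- a map with the Leibniz rule which vanishes at the constants and the variables vanishes -/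
private theorem X1_zero {R : Type*} [CommRing R] [IsLocalRing R] [IsNoetherianRing R] {σ : Type*} [Fintype σ]
    {S : Type*} [CommRing S] [Algebra (MvPowerSeries σ R) S] [Module.Finite (MvPowerSeries σ R) S]
    (E : MvPowerSeries σ R → S) (hadd : ∀ f g, E (f + g) = E f + E g)
    (hmul : ∀ f g, E (f * g) = algebraMap (MvPowerSeries σ R) S f * E g + algebraMap (MvPowerSeries σ R) S g * E f)
    (hC : ∀ c : R, E (MvPowerSeries.C c) = 0) (hX : ∀ i, E (MvPowerSeries.X i) = 0)
    (f : MvPowerSeries σ R) : E f = 0 := by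
  classical
  obtain ⟨I, hIdef⟩ : ∃ I : Ideal (MvPowerSeries σ R), I =
      Ideal.span (Set.range (MvPowerSeries.X : σ → MvPowerSeries σ R)) := ⟨_, rfl⟩
  have h0 : E 0 = 0 := by
    have h1 := hC 0
    rw [map_zero] at h1
    exact h1
  have hcl : ∀ n : ℕ, ∀ f, E f ∈ (I ^ n • ⊤ : Submodule (MvPowerSeries σ R) S) := by
    intro n
    induction n with
    | zero =>
      intro f
      rw [pow_zero, one_smul]
      exact Submodule.mem_top
    | succ n ih =>
      have h1 : ∀ g ∈ I, E g ∈ (I ^ (n + 1) • ⊤ : Submodule (MvPowerSeries σ R) S) := by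
        intro g hg
        rw [hIdef] at hg
        induction hg using Submodule.span_induction with
        | mem g hg =>
          obtain ⟨j, rfl⟩ := hg
          rw [hX]
          exact zero_mem _
        | zero =>
          rw [h0]
          exact zero_mem _
        | add x y _ _ hx hy =>
          rw [hadd]
          exact add_mem hx hy
        | smul r x hx hx' =>
          rw [smul_eq_mul, hmul, ← Algebra.smul_def, ← Algebra.smul_def]
          refine add_mem (Submodule.smul_mem _ _ hx') ?_
          rw [pow_succ', Submodule.mul_smul]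
          refine Submodule.smul_mem_smul ?_ (ih r)
          rw [hIdef]
          exact hx
      intro f
      have h2 : f = MvPowerSeries.C (MvPowerSeries.constantCoeff f) +
          (f - MvPowerSeries.C (MvPowerSeries.constantCoeff f)) := by ring
      rw [h2, hadd, hC, zero_add]
      refine h1 _ ?_
      rw [hIdef]
      exact X1_mem f
  have hne : I ≠ ⊤ := by
    intro htop
    have h4 : I ≤ RingHom.ker (MvPowerSeries.constantCoeff : MvPowerSeries σ R →+* R) := by
      rw [hIdef, Ideal.span_le]
      rintro _ ⟨j, rfl⟩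
      exact MvPowerSeries.constantCoeff_X j
    have h5 : (1 : MvPowerSeries σ R) ∈ I := by
      rw [htop]
      exact Submodule.mem_top
    have h6 : MvPowerSeries.constantCoeff (1 : MvPowerSeries σ R) = 0 := h4 h5
    rw [map_one] at h6
    exact one_ne_zero h6
  have h1 : E f ∈ (⨅ n : ℕ, I ^ n • ⊤ : Submodule (MvPowerSeries σ R) S) := by
    rw [Submodule.mem_iInf]
    intro n
    exact hcl n f
  rw [Ideal.iInf_pow_smul_eq_bot_of_isLocalRing I hne] at h1
  exact (Submodule.mem_bot _).1 h1

private theorem X1_alg {R : Type*} [CommRing R] {O : Type*} [CommRing O] [Algebra R O] (I : Ideal O[X])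
    (D : Derivation R (O[X] ⧸ I) (O[X] ⧸ I)) (a : R) :
    D (Ideal.Quotient.mk I (C (algebraMap R O a))) = 0 := by
  have h1 : Ideal.Quotient.mk I (C (algebraMap R O a)) = algebraMap R (O[X] ⧸ I) a := by
    rw [← Polynomial.algebraMap_apply]
    rfl
  rw [h1, Derivation.map_algebraMap]

private theorem X1_const {R : Type*} [CommRing R] {N : ℕ} (P Q : (MvPowerSeries (Fin N) R)[X])
    (D : Derivation R (Src R P Q) (Src R P Q)) (a : R) : D (cl R P Q (C (MvPowerSeries.C a))) = 0 := by
  have h1 := X1_alg (Ideal.span {P, Q}) D a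
  rw [← MvPowerSeries.c_eq_algebraMap] at h1
  exact h1

private theorem X1_finite {O : Type*} [CommRing O] (P Q : O[X]) (hP : P.Monic) :
    Module.Finite O (O[X] ⧸ Ideal.span {P, Q}) := by
  have h1 : Module.Finite O (O[X] ⧸ Ideal.span {P}) := hP.finite_adjoinRoot
  have h2 : Ideal.span {P} ≤ Ideal.span {P, Q} := by
    rw [Ideal.span_le]
    intro x hx
    rw [Set.mem_singleton_iff] at hx
    rw [hx]
    exact Ideal.subset_span (Set.mem_insert _ _)
  exact Module.Finite.of_surjective (Ideal.Quotient.factorₐ O h2).toLinearMap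
    (Ideal.Quotient.factor_surjective h2)

theorem deriv_cl {R : Type*} [CommRing R] [IsLocalRing R] [IsNoetherianRing R] {N : ℕ}
    (P Q : (MvPowerSeries (Fin N) R)[X]) (hP : P.Monic) (D : Derivation R (Src R P Q) (Src R P Q))
    (H : (MvPowerSeries (Fin N) R)[X]) :
    D (cl R P Q H) = (∑ j, cl R P Q (dj R j H) * D (yS R P Q j)) +
      cl R P Q (derivative H) * D (cl R P Q X) := by
  classical
  have hfin : Module.Finite (MvPowerSeries (Fin N) R) (Src R P Q) := X1_finite P Q hP
  -- the difference of the two sides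
  obtain ⟨E, hE⟩ : ∃ E : (MvPowerSeries (Fin N) R)[X] → Src R P Q, ∀ H, E H = D (cl R P Q H) -
      ((∑ j, cl R P Q (dj R j H) * D (yS R P Q j)) + cl R P Q (derivative H) * D (cl R P Q X)) :=
    ⟨_, fun H => rfl⟩
  have hdjadd : ∀ (j : Fin N) (F G : (MvPowerSeries (Fin N) R)[X]), dj R j (F + G) = dj R j F + dj R j G :=
    fun j F G => Pool.Agent.LibMF6.dC_add (MvPowerSeries.pderiv R j) F G
  have hdjmul : ∀ (j : Fin N) (F G : (MvPowerSeries (Fin N) R)[X]),
      dj R j (F * G) = dj R j F * G + F * dj R j G :=
    fun j F G => Pool.Agent.LibMF6.dC_mul (MvPowerSeries.pderiv R j) F G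
  have hdjC : ∀ (j : Fin N) (c : MvPowerSeries (Fin N) R), dj R j (C c) = C (MvPowerSeries.pderiv R j c) :=
    fun j c => Pool.Agent.LibMF6.dC_C (MvPowerSeries.pderiv R j) c
  have hdjX : ∀ j : Fin N, dj R j (X : (MvPowerSeries (Fin N) R)[X]) = 0 :=
    fun j => Pool.Agent.LibMF6.dC_X (MvPowerSeries.pderiv R j)
  have hclmul : ∀ F G : (MvPowerSeries (Fin N) R)[X], cl R P Q (F * G) = cl R P Q F * cl R P Q G :=
    fun F G => map_mul _ F G
  have hcladd : ∀ F G : (MvPowerSeries (Fin N) R)[X], cl R P Q (F + G) = cl R P Q F + cl R P Q G :=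
    fun F G => map_add _ F G
  have hcl0 : ∀ x : Src R P Q, cl R P Q (0 : (MvPowerSeries (Fin N) R)[X]) * x = 0 := by
    intro x
    have h1 : cl R P Q (0 : (MvPowerSeries (Fin N) R)[X]) = 0 := map_zero _
    rw [h1]
    exact zero_mul x
  have hcl1 : ∀ x : Src R P Q, cl R P Q (1 : (MvPowerSeries (Fin N) R)[X]) * x = x := by
    intro x
    have h1 : cl R P Q (1 : (MvPowerSeries (Fin N) R)[X]) = 1 := map_one _
    rw [h1]
    exact one_mul x
  have hadd : ∀ F G, E (F + G) = E F + E G := by
    intro F G
    rw [hE, hE, hE, hcladd, map_add, derivative_add, hcladd (derivative F)]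
    simp only [hdjadd, hcladd, add_mul, Finset.sum_add_distrib]
    ring
  have hmul : ∀ F G, E (F * G) = cl R P Q F * E G + cl R P Q G * E F := by
    intro F G
    have h1 : ∀ j, cl R P Q (dj R j (F * G)) * D (yS R P Q j) =
        cl R P Q F * (cl R P Q (dj R j G) * D (yS R P Q j)) +
        cl R P Q G * (cl R P Q (dj R j F) * D (yS R P Q j)) := by
      intro j
      rw [hdjmul, hcladd, hclmul, hclmul]
      ring
    rw [hE, hE, hE, Finset.sum_congr rfl fun j _ => h1 j, Finset.sum_add_distrib,
      ← Finset.mul_sum, ← Finset.mul_sum, hclmul, Derivation.leibniz, smul_eq_mul, smul_eq_mul,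
      derivative_mul, hcladd, hclmul, hclmul]
    ring
  have hC : ∀ c : MvPowerSeries (Fin N) R, E (C c) = 0 := by
    intro c
    refine X1_zero (S := Src R P Q) (fun c => E (C c)) ?_ ?_ ?_ ?_ c
    · intro f g
      simp only [C_add, hadd]
    · intro f g
      simp only [C_mul, hmul]
      rfl
    · intro a
      have h1 : D (cl R P Q (C (MvPowerSeries.C a))) = 0 := X1_const P Q D a
      simp only [hE]
      rw [h1, derivative_C, hcl0, add_zero, zero_sub, neg_eq_zero]
      refine Finset.sum_eq_zero fun j _ => ?_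
      rw [hdjC, MvPowerSeries.pderiv_C, C_0, hcl0]
    · intro i
      simp only [hE]
      rw [derivative_C, hcl0, add_zero, Finset.sum_eq_single i, hdjC,
        MvPowerSeries.pderiv_X_self, C_1, hcl1, sub_self]
      · intro j _ hj
        rw [hdjC, MvPowerSeries.pderiv_X_of_ne (Ne.symm hj), C_0, hcl0]
      · intro h
        exact absurd (Finset.mem_univ _) h
  have hX : E X = 0 := by
    rw [hE, derivative_X, hcl1, Finset.sum_eq_zero, zero_add, sub_self]
    intro j _
    rw [hdjX, hcl0]
  have hm0 : ∀ x : Src R P Q, x * 0 = 0 := fun x => mul_zero x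
  have ha0 : ∀ x : Src R P Q, x + 0 = x := fun x => add_zero x
  have hall : ∀ H, E H = 0 := by
    intro H
    induction H using Polynomial.induction_on with
    | C a => exact hC a
    | add p q hp hq => rw [hadd, hp, hq, add_zero]
    | monomial n a h =>
      rw [pow_succ, ← mul_assoc, hmul, h, hX, hm0, hm0, ha0]
  have h9 := hall H
  rw [hE] at h9
  exact sub_eq_zero.1 h9

end Pool.Agent.LibMX10
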