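import Pool.Agent.LibMX10.Defs
import Pool.Agent.LibMF6.A2
import Pool.Agent.LibMF6.A4

set_option autoImplicit false

/-! X10: the Jacobian criterion forces the norm to be nonzero; a nonempty source forces its constant term to vanish. -/

namespace Pool.Agent.LibMX10

open Polynomial Pool.Agent.LibMF6

private theorem X10_clear {A K : Type*} [CommRing A] [IsDomain A] [Field K] [Algebra A K] [IsFractionRing A K] (f : K[X]) :
    ∃ (b : A) (F : A[X]), b ≠ 0 ∧ F.map (algebraMap A K) = C (algebraMap A K b) * f := by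
  obtain ⟨b, hb0, hb⟩ := IsLocalization.integerNormalization_spec (nonZeroDivisors A) f
  refine ⟨b, IsLocalization.integerNormalization (nonZeroDivisors A) f, nonZeroDivisors.ne_zero hb0, ?_⟩
  rw [hb, Algebra.smul_def]
  rfl

private theorem X10_abs {A L : Type*} [CommRing A] [CommRing L] (κ : A →+* L) (P Q H U V c1 c2 : A) (hP : κ P = 0)
    (hQ : κ Q = 0) (hH : κ H = 0) (hc1 : IsUnit (κ c1)) (hc2 : IsUnit (κ c2)) (hPU : c1 * P = H * U)
    (hQV : c2 * Q = H * V) (δ δ' : A → A) (hδ : ∀ F G, δ (F * G) = δ F * G + F * δ G)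
    (hδ' : ∀ F G, δ' (F * G) = δ' F * G + F * δ' G) : κ (δ P * δ' Q - δ' P * δ Q) = 0 := by
  have hd : ∀ (δ : A → A) (_ : ∀ F G, δ (F * G) = δ F * G + F * δ G) (c F W : A),
      κ F = 0 → c * F = H * W → κ c * κ (δ F) = κ (δ H) * κ W := by
    intro δ hδ c F W hF hFW
    have h2 := congrArg (fun z => κ (δ z)) hFW
    simp only [hδ, map_add, map_mul] at h2
    rw [hF, hH, mul_zero, zero_add, zero_mul, add_zero] at h2
    exact h2
  have h2 := hd δ hδ c1 P U hP hPU
  have h3 := hd δ hδ c2 Q V hQ hQV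
  have h4 := hd δ' hδ' c1 P U hP hPU
  have h5 := hd δ' hδ' c2 Q V hQ hQV
  refine (IsUnit.mul_right_eq_zero (hc1.mul hc2)).mp ?_
  rw [map_sub, map_mul, map_mul]
  calc κ c1 * κ c2 * (κ (δ P) * κ (δ' Q) - κ (δ' P) * κ (δ Q))
      = (κ c1 * κ (δ P)) * (κ c2 * κ (δ' Q)) - (κ c1 * κ (δ' P)) * (κ c2 * κ (δ Q)) := by ring
    _ = 0 := by rw [h2, h3, h4, h5]; ring

private theorem X10_one {A L : Type*} [CommRing A] [CommRing L] [Nontrivial L] (κ : A →+* L) (h : ⊤ ≤ RingHom.ker κ) :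
    False := by
  have h2 : κ 1 = 0 := h (Submodule.mem_top)
  rw [map_one] at h2
  exact one_ne_zero h2

private theorem X10_ker {R L : Type*} [CommRing R] [CommRing L] [Nontrivial L] {N : ℕ}
    (κ : (MvPowerSeries (Fin N) R)[X] →+* L) (P Q H U V c1 c2 : (MvPowerSeries (Fin N) R)[X]) (hP : κ P = 0)
    (hQ : κ Q = 0) (hH : κ H = 0) (hc1 : IsUnit (κ c1)) (hc2 : IsUnit (κ c2)) (hPU : c1 * P = H * U)
    (hQV : c2 * Q = H * V) (h : IsSm R P Q) : False := by
  have hdj : ∀ j : Fin N, ∀ F G : (MvPowerSeries (Fin N) R)[X], dj R j (F * G) = dj R j F * G + F * dj R j G := by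
    intro j F G
    exact dC_mul (MvPowerSeries.pderiv R j) F G
  have hdx : ∀ F G : (MvPowerSeries (Fin N) R)[X], derivative (F * G) = derivative F * G + F * derivative G :=
    fun F G => derivative_mul
  have hle : Ideal.span ({P, Q} ∪ {z | ∃ i j : Fin N, z = dj R i P * dj R j Q - dj R j P * dj R i Q} ∪
    {z | ∃ j : Fin N, z = dj R j P * derivative Q - derivative P * dj R j Q}) ≤ RingHom.ker κ := by
    rw [Ideal.span_le]
    rintro z (((rfl | rfl) | ⟨i, j, rfl⟩) | ⟨j, rfl⟩)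
    · exact hP
    · exact hQ
    · exact X10_abs κ P Q H U V c1 c2 hP hQ hH hc1 hc2 hPU hQV (dj R i) (dj R j) (hdj i) (hdj j)
    · exact X10_abs κ P Q H U V c1 c2 hP hQ hH hc1 hc2 hPU hQV (dj R j) (fun F => derivative F) (hdj j) hdx
  unfold IsSm at h
  rw [h] at hle
  exact X10_one κ hle

private theorem X10_frac {A K : Type*} [CommRing A] [IsDomain A] [Field K] [Algebra A K] [IsFractionRing A K] (P Q : A[X])
    (hcop : ¬ IsCoprime (P.map (algebraMap A K)) (Q.map (algebraMap A K))) :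
    ∃ (g : K[X]) (H U V c1 c2 : A[X]), Nontrivial (K[X] ⧸ Ideal.span {g}) ∧
      P.map (algebraMap A K) ∈ Ideal.span {g} ∧ Q.map (algebraMap A K) ∈ Ideal.span {g} ∧
      H.map (algebraMap A K) ∈ Ideal.span {g} ∧ IsUnit (c1.map (algebraMap A K)) ∧ IsUnit (c2.map (algebraMap A K)) ∧
      c1 * P = H * U ∧ c2 * Q = H * V := by
  classical
  have hinj : Function.Injective (algebraMap A K) := IsFractionRing.injective _ _
  rw [← EuclideanDomain.gcd_isUnit_iff] at hcop
  set g := EuclideanDomain.gcd (P.map (algebraMap A K)) (Q.map (algebraMap A K)) with hg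
  obtain ⟨P1, hP1⟩ := EuclideanDomain.gcd_dvd_left (P.map (algebraMap A K)) (Q.map (algebraMap A K))
  obtain ⟨Q1, hQ1⟩ := EuclideanDomain.gcd_dvd_right (P.map (algebraMap A K)) (Q.map (algebraMap A K))
  rw [← hg] at hP1 hQ1
  obtain ⟨b, H, hb, hH⟩ := X10_clear (A := A) g
  obtain ⟨b1, U, hb1, hU⟩ := X10_clear (A := A) P1
  obtain ⟨b2, V, hb2, hV⟩ := X10_clear (A := A) Q1
  have hunit : ∀ c : A, c ≠ 0 → IsUnit ((C c : A[X]).map (algebraMap A K)) := by
    intro c hc
    rw [Polynomial.map_C]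
    refine Polynomial.isUnit_C.mpr (IsUnit.mk0 _ ?_)
    intro h3
    exact hc (hinj (by rw [h3, map_zero]))
  refine ⟨g, H, U, V, C (b * b1), C (b * b2),
    Ideal.Quotient.nontrivial_iff.mpr (fun ht => hcop (Ideal.span_singleton_eq_top.mp ht)), ?_, ?_, ?_,
    hunit _ (mul_ne_zero hb hb1), hunit _ (mul_ne_zero hb hb2), ?_, ?_⟩
  · rw [hP1]
    exact Ideal.mul_mem_right _ _ (Ideal.mem_span_singleton_self g)
  · rw [hQ1]
    exact Ideal.mul_mem_right _ _ (Ideal.mem_span_singleton_self g)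
  · rw [hH]
    exact Ideal.mul_mem_left _ _ (Ideal.mem_span_singleton_self g)
  · apply Polynomial.map_injective _ hinj
    rw [Polynomial.map_mul, Polynomial.map_mul, hH, hU, hP1, Polynomial.map_C, map_mul, C_mul]
    ring
  · apply Polynomial.map_injective _ hinj
    rw [Polynomial.map_mul, Polynomial.map_mul, hH, hV, hQ1, Polynomial.map_C, map_mul, C_mul]
    ring

private theorem X10_L {A B : Type*} [CommRing A] [CommRing B] (f : A →+* B) (I : Ideal B) (hI : Nontrivial (B ⧸ I)) :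
    ∃ (κ : A →+* (B ⧸ I)), (∀ z, f z ∈ I → κ z = 0) ∧ (∀ z, IsUnit (f z) → IsUnit (κ z)) :=
  ⟨(Ideal.Quotient.mk I).comp f, fun z hz => Ideal.Quotient.eq_zero_iff_mem.mpr hz,
    fun z hz => hz.map (Ideal.Quotient.mk I)⟩

theorem GG_ne_zero_of_isSm {R : Type*} [CommRing R] [IsDomain R] {N : ℕ} (P Q : (MvPowerSeries (Fin N) R)[X])
    (hP : P.Monic) (h : IsSm R P Q) : GG P Q ≠ 0 := by
  classical
  intro hG
  have hdom : IsDomain (MvPowerSeries (Fin N) R) := NoZeroDivisors.to_isDomain _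
  have h1 := norm_map (K := FractionRing (MvPowerSeries (Fin N) R)) P Q hP
  rw [hG, map_zero] at h1
  have hcop : ¬ IsCoprime (P.map (algebraMap (MvPowerSeries (Fin N) R) (FractionRing (MvPowerSeries (Fin N) R))))
      (Q.map (algebraMap (MvPowerSeries (Fin N) R) (FractionRing (MvPowerSeries (Fin N) R)))) :=
    fun hc => norm_ne_zero _ _ (hP.map _) hc h1.symm
  obtain ⟨g, H, U, V, c1, c2, hL, hg1, hg2, hg3, hu1, hu2, hPU, hQV⟩ := X10_frac P Q hcop
  obtain ⟨κ, hκ, hκ'⟩ := X10_L (Polynomial.mapRingHom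
    (algebraMap (MvPowerSeries (Fin N) R) (FractionRing (MvPowerSeries (Fin N) R)))) (Ideal.span {g}) hL
  exact X10_ker κ P Q H U V c1 c2 (hκ _ hg1) (hκ _ hg2) (hκ _ hg3) (hκ' _ hu1) (hκ' _ hu2) hPU hQV h

theorem constantCoeff_GG {k : Type*} [Field k] {N : ℕ} (P Q : (MvPowerSeries (Fin N) k)[X]) (hP : P.Monic)
    (hm : 0 < P.natDegree) (h : Nontrivial (Src k P Q)) : MvPowerSeries.constantCoeff (GG P Q) = 0 := by
  by_contra hne
  have hu : IsUnit (GG P Q) := by
    rw [MvPowerSeries.isUnit_iff_constantCoeff]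
    exact IsUnit.mk0 _ hne
  obtain ⟨r, hr, -⟩ := exists_adj (R := k) P Q hP hm
  have hq : IsUnit (AdjoinRoot.mk P Q) := by
    have h1 : IsUnit (AdjoinRoot.mk P Q * r) := by
      rw [hr]
      exact hu.map _
    exact isUnit_of_mul_isUnit_left h1
  obtain ⟨t, ht⟩ := hq.exists_right_inv
  obtain ⟨T, rfl⟩ := AdjoinRoot.mk_surjective t
  rw [← map_mul, ← sub_eq_zero, ← map_one (AdjoinRoot.mk P), ← map_sub, AdjoinRoot.mk_eq_zero] at ht
  obtain ⟨c, hc⟩ := ht
  have h2 : (1 : (MvPowerSeries (Fin N) k)[X]) ∈ Ideal.span {P, Q} := by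
    rw [Ideal.mem_span_pair]
    exact ⟨-c, T, by linear_combination hc⟩
  exact (Ideal.Quotient.nontrivial_iff.mp h) ((Ideal.eq_top_iff_one _).mpr h2)

theorem natDegree_pos {k : Type*} [Field k] {N : ℕ} (P Q : (MvPowerSeries (Fin N) k)[X]) (hP : P.Monic)
    (h : Nontrivial (Src k P Q)) : 0 < P.natDegree := by
  by_contra hne
  have h1 : P = 1 := eq_one_of_monic_natDegree_zero hP (Nat.eq_zero_of_not_pos hne)
  have h2 : (1 : (MvPowerSeries (Fin N) k)[X]) ∈ Ideal.span {P, Q} := by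
    rw [h1]
    exact Ideal.subset_span (Or.inl rfl)
  exact (Ideal.Quotient.nontrivial_iff.mp h) ((Ideal.eq_top_iff_one _).mpr h2)

end Pool.Agent.LibMX10
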