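import Pool.Agent.LibMX10.X1

set_option autoImplicit false

/-! ROW X2 (SHORT/MEDIUM, X1, LibMF6.A0). tf(θ) = the first components of the solutions of the Jacobian system.
 exists_deriv: given ξ, ζ with the two relations, define δ : O[X] → X, δ H = ∑ j, cl (dj j H) * ξ j + cl (derivative H) * ζ: additive, R-linear, Leibniz (dC_mul, derivative_mul), δ P = 0 = δ Q, so δ maps the ideal (P, Q)
   to 0 (δ (a P) = cl a * δ P + cl P * δ a = 0) and factors through X (Ideal.Quotient / Submodule.liftQ; build the derivation by hand with surjectivity of mk, or Derivation.liftOfSurjective-type lemmas). D (yS j) = ξ j: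
   dj i (C (X j)) = C (pderiv i (X j)), derivative (C _) = 0. mem_tfX_iff: → by X1 applied to H = P, Q (cl P = 0) with ζ = D (cl X); ← by exists_deriv. -/

namespace Pool.Agent.LibMX10

open Polynomial

private theorem X2_clP {R : Type*} [CommRing R] {N : ℕ} (P Q : (MvPowerSeries (Fin N) R)[X]) :
    cl R P Q P = 0 :=
  Ideal.Quotient.eq_zero_iff_mem.2 (Ideal.subset_span (Set.mem_insert _ _))

private theorem X2_clQ {R : Type*} [CommRing R] {N : ℕ} (P Q : (MvPowerSeries (Fin N) R)[X]) :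
    cl R P Q Q = 0 :=
  Ideal.Quotient.eq_zero_iff_mem.2 (Ideal.subset_span (Set.mem_insert_of_mem _ (Set.mem_singleton _)))

private theorem X2_dj_add {R : Type*} [CommRing R] {N : ℕ} (j : Fin N) (H H' : (MvPowerSeries (Fin N) R)[X]) :
    dj R j (H + H') = dj R j H + dj R j H' :=
  Pool.Agent.LibMF6.dC_add (MvPowerSeries.pderiv R j) H H'

private theorem X2_dj_mul {R : Type*} [CommRing R] {N : ℕ} (j : Fin N) (H H' : (MvPowerSeries (Fin N) R)[X]) :
    dj R j (H * H') = dj R j H * H' + H * dj R j H' :=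
  Pool.Agent.LibMF6.dC_mul (MvPowerSeries.pderiv R j) H H'

private theorem X2_dj_smul {R : Type*} [CommRing R] {N : ℕ} (j : Fin N) (r : R) (H : (MvPowerSeries (Fin N) R)[X]) :
    dj R j (r • H) = r • dj R j H :=
  Pool.Agent.LibMF6.dC_smul (MvPowerSeries.pderiv R j) r H

private theorem X2_dj_C {R : Type*} [CommRing R] {N : ℕ} (j : Fin N) (c : MvPowerSeries (Fin N) R) :
    dj R j (C c) = C (MvPowerSeries.pderiv R j c) :=
  Pool.Agent.LibMF6.dC_C (MvPowerSeries.pderiv R j) c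

private theorem X2_cl_add {R : Type*} [CommRing R] {N : ℕ} (P Q H H' : (MvPowerSeries (Fin N) R)[X]) :
    cl R P Q (H + H') = cl R P Q H + cl R P Q H' :=
  map_add (Ideal.Quotient.mk (Ideal.span {P, Q})) H H'

private theorem X2_cl_sub {R : Type*} [CommRing R] {N : ℕ} (P Q H H' : (MvPowerSeries (Fin N) R)[X]) :
    cl R P Q (H - H') = cl R P Q H - cl R P Q H' :=
  map_sub (Ideal.Quotient.mk (Ideal.span {P, Q})) H H'

private theorem X2_cl_mul {R : Type*} [CommRing R] {N : ℕ} (P Q H H' : (MvPowerSeries (Fin N) R)[X]) :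
    cl R P Q (H * H') = cl R P Q H * cl R P Q H' :=
  map_mul (Ideal.Quotient.mk (Ideal.span {P, Q})) H H'

private theorem X2_cl_one {R : Type*} [CommRing R] {N : ℕ} (P Q : (MvPowerSeries (Fin N) R)[X]) :
    cl R P Q 1 = 1 :=
  map_one (Ideal.Quotient.mk (Ideal.span {P, Q}))

private theorem X2_cl_zero {R : Type*} [CommRing R] {N : ℕ} (P Q : (MvPowerSeries (Fin N) R)[X]) :
    cl R P Q 0 = 0 :=
  map_zero (Ideal.Quotient.mk (Ideal.span {P, Q}))

private theorem X2_mul_one {R : Type*} [CommRing R] {N : ℕ} (P Q : (MvPowerSeries (Fin N) R)[X])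
    (x : Src R P Q) : x * 1 = x := mul_one x

private theorem X2_mul_zero {R : Type*} [CommRing R] {N : ℕ} (P Q : (MvPowerSeries (Fin N) R)[X])
    (x : Src R P Q) : x * 0 = 0 := mul_zero x

private theorem X2_add_zero {R : Type*} [CommRing R] {N : ℕ} (P Q : (MvPowerSeries (Fin N) R)[X])
    (x : Src R P Q) : x + 0 = x := add_zero x

private theorem X2_mul_comm {R : Type*} [CommRing R] {N : ℕ} (P Q : (MvPowerSeries (Fin N) R)[X])
    (x y : Src R P Q) : x * y = y * x := mul_comm x y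

private theorem X2_cl_smul {R : Type*} [CommRing R] {N : ℕ} (P Q : (MvPowerSeries (Fin N) R)[X]) (r : R)
    (H : (MvPowerSeries (Fin N) R)[X]) : cl R P Q (r • H) = r • cl R P Q H :=
  map_smul (Ideal.Quotient.mkₐ R (Ideal.span {P, Q})) r H

/-- the derivation on the polynomial ring, with values in the quotient -/
private noncomputable def X2_del {R : Type*} [CommRing R] {N : ℕ} (P Q : (MvPowerSeries (Fin N) R)[X])
    (ξ : Fin N → Src R P Q) (ζ : Src R P Q) (H : (MvPowerSeries (Fin N) R)[X]) : Src R P Q :=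
  (∑ j, ξ j * cl R P Q (dj R j H)) + ζ * cl R P Q (derivative H)

private theorem X2_del_add {R : Type*} [CommRing R] {N : ℕ} (P Q : (MvPowerSeries (Fin N) R)[X])
    (ξ : Fin N → Src R P Q) (ζ : Src R P Q) (H H' : (MvPowerSeries (Fin N) R)[X]) :
    X2_del P Q ξ ζ (H + H') = X2_del P Q ξ ζ H + X2_del P Q ξ ζ H' := by
  unfold X2_del
  have h1 : ∀ j, ξ j * cl R P Q (dj R j (H + H')) = ξ j * cl R P Q (dj R j H) + ξ j * cl R P Q (dj R j H') := by
    intro j
    rw [X2_dj_add, X2_cl_add, mul_add]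
  rw [Finset.sum_congr rfl (fun j _ => h1 j), Finset.sum_add_distrib, derivative_add, X2_cl_add, mul_add]
  ring

private theorem X2_del_mul {R : Type*} [CommRing R] {N : ℕ} (P Q : (MvPowerSeries (Fin N) R)[X])
    (ξ : Fin N → Src R P Q) (ζ : Src R P Q) (H H' : (MvPowerSeries (Fin N) R)[X]) :
    X2_del P Q ξ ζ (H * H') = cl R P Q H * X2_del P Q ξ ζ H' + cl R P Q H' * X2_del P Q ξ ζ H := by
  unfold X2_del
  have h1 : ∀ j, ξ j * cl R P Q (dj R j (H * H')) =
      cl R P Q H * (ξ j * cl R P Q (dj R j H')) + cl R P Q H' * (ξ j * cl R P Q (dj R j H)) := by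
    intro j
    rw [X2_dj_mul, X2_cl_add, X2_cl_mul, X2_cl_mul]
    ring
  rw [Finset.sum_congr rfl (fun j _ => h1 j), Finset.sum_add_distrib, ← Finset.mul_sum, ← Finset.mul_sum,
    derivative_mul, X2_cl_add, X2_cl_mul, X2_cl_mul]
  ring

private theorem X2_del_smul {R : Type*} [CommRing R] {N : ℕ} (P Q : (MvPowerSeries (Fin N) R)[X])
    (ξ : Fin N → Src R P Q) (ζ : Src R P Q) (r : R) (H : (MvPowerSeries (Fin N) R)[X]) :
    X2_del P Q ξ ζ (r • H) = r • X2_del P Q ξ ζ H := by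
  unfold X2_del
  have h1 : ∀ j, ξ j * cl R P Q (dj R j (r • H)) = r • (ξ j * cl R P Q (dj R j H)) := by
    intro j
    rw [X2_dj_smul, X2_cl_smul, mul_smul_comm]
  rw [Finset.sum_congr rfl (fun j _ => h1 j), ← Finset.smul_sum, derivative_smul, X2_cl_smul, mul_smul_comm,
    smul_add]

private theorem X2_del_zero {R : Type*} [CommRing R] {N : ℕ} (P Q : (MvPowerSeries (Fin N) R)[X])
    (ξ : Fin N → Src R P Q) (ζ : Src R P Q) (h1 : X2_del P Q ξ ζ P = 0) (h2 : X2_del P Q ξ ζ Q = 0)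
    {H : (MvPowerSeries (Fin N) R)[X]} (hH : cl R P Q H = 0) : X2_del P Q ξ ζ H = 0 := by
  have h3 : H ∈ Ideal.span {P, Q} := Ideal.Quotient.eq_zero_iff_mem.1 hH
  obtain ⟨a, b, rfl⟩ := Ideal.mem_span_pair.1 h3
  rw [X2_del_add, X2_del_mul, X2_del_mul, h1, h2, X2_clP, X2_clQ]
  ring

private theorem X2_del_congr {R : Type*} [CommRing R] {N : ℕ} (P Q : (MvPowerSeries (Fin N) R)[X])
    (ξ : Fin N → Src R P Q) (ζ : Src R P Q) (h1 : X2_del P Q ξ ζ P = 0) (h2 : X2_del P Q ξ ζ Q = 0)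
    {H H' : (MvPowerSeries (Fin N) R)[X]} (hH : cl R P Q H = cl R P Q H') :
    X2_del P Q ξ ζ H = X2_del P Q ξ ζ H' := by
  have h3 : cl R P Q (H - H') = 0 := by rw [X2_cl_sub, hH, sub_self]
  have h4 := X2_del_zero P Q ξ ζ h1 h2 h3
  have h5 := X2_del_add P Q ξ ζ (H - H') H'
  rw [sub_add_cancel, h4, zero_add] at h5
  exact h5

theorem exists_deriv {R : Type*} [CommRing R] {N : ℕ} (P Q : (MvPowerSeries (Fin N) R)[X]) (ξ : Fin N → Src R P Q)
    (ζ : Src R P Q) (h1 : (∑ j, ξ j * cl R P Q (dj R j P)) + ζ * cl R P Q (derivative P) = 0)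
    (h2 : (∑ j, ξ j * cl R P Q (dj R j Q)) + ζ * cl R P Q (derivative Q) = 0) :
    ∃ D : Derivation R (Src R P Q) (Src R P Q), ∀ j, ξ j = D (yS R P Q j) := by
  classical
  have h1' : X2_del P Q ξ ζ P = 0 := h1
  have h2' : X2_del P Q ξ ζ Q = 0 := h2
  have hsur : ∀ x : Src R P Q, ∃ H, cl R P Q H = x := fun x => Ideal.Quotient.mk_surjective x
  choose rep hrep using hsur
  refine ⟨Derivation.mk' ⟨⟨fun x => X2_del P Q ξ ζ (rep x), ?_⟩, ?_⟩ ?_, ?_⟩
  · intro x y
    change X2_del P Q ξ ζ (rep (x + y)) = X2_del P Q ξ ζ (rep x) + X2_del P Q ξ ζ (rep y)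
    rw [← X2_del_add]
    refine X2_del_congr P Q ξ ζ h1' h2' ?_
    rw [X2_cl_add, hrep, hrep, hrep]
  · intro r x
    change X2_del P Q ξ ζ (rep (r • x)) = r • X2_del P Q ξ ζ (rep x)
    rw [← X2_del_smul]
    refine X2_del_congr P Q ξ ζ h1' h2' ?_
    rw [X2_cl_smul, hrep, hrep]
  · intro x y
    change X2_del P Q ξ ζ (rep (x * y)) = x * X2_del P Q ξ ζ (rep y) + y * X2_del P Q ξ ζ (rep x)
    have h3 : X2_del P Q ξ ζ (rep (x * y)) = X2_del P Q ξ ζ (rep x * rep y) := by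
      refine X2_del_congr P Q ξ ζ h1' h2' ?_
      rw [X2_cl_mul, hrep, hrep, hrep]
    rw [h3, X2_del_mul, hrep, hrep]
  · intro i
    change ξ i = X2_del P Q ξ ζ (rep (yS R P Q i))
    have h3 : X2_del P Q ξ ζ (rep (yS R P Q i)) = X2_del P Q ξ ζ (C (MvPowerSeries.X i)) :=
      X2_del_congr P Q ξ ζ h1' h2' (hrep _)
    rw [h3]
    unfold X2_del
    have h4 : ∀ j, ξ j * cl R P Q (dj R j (C (MvPowerSeries.X i))) = if j = i then ξ j else 0 := by
      intro j
      rw [X2_dj_C]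
      by_cases hji : j = i
      · rw [if_pos hji, hji, MvPowerSeries.pderiv_X_self, C_1, X2_cl_one, X2_mul_one]
      · have hij : i ≠ j := fun h => hji h.symm
        rw [if_neg hji, MvPowerSeries.pderiv_X_of_ne hij, C_0, X2_cl_zero, X2_mul_zero]
    rw [Finset.sum_congr rfl (fun j _ => h4 j), Finset.sum_ite_eq' Finset.univ i, if_pos (Finset.mem_univ i),
      derivative_C, X2_cl_zero, X2_mul_zero, X2_add_zero]

theorem mem_tfX_iff {R : Type*} [CommRing R] [IsLocalRing R] [IsNoetherianRing R] {N : ℕ}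
    (P Q : (MvPowerSeries (Fin N) R)[X]) (hP : P.Monic) (ξ : Fin N → Src R P Q) :
    ξ ∈ tfX R P Q ↔ ∃ ζ : Src R P Q, (∑ j, ξ j * cl R P Q (dj R j P)) + ζ * cl R P Q (derivative P) = 0 ∧
      (∑ j, ξ j * cl R P Q (dj R j Q)) + ζ * cl R P Q (derivative Q) = 0 := by
  constructor
  · rintro ⟨D, hD⟩
    have hgen : ∀ H : (MvPowerSeries (Fin N) R)[X], cl R P Q H = 0 →
        (∑ j, ξ j * cl R P Q (dj R j H)) + D (cl R P Q X) * cl R P Q (derivative H) = 0 := by
      intro H hH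
      have h1 := deriv_cl P Q hP D H
      rw [hH, map_zero] at h1
      rw [h1, X2_mul_comm P Q (D (cl R P Q X))]
      congr 1
      refine Finset.sum_congr rfl fun j _ => ?_
      rw [hD j]
      exact X2_mul_comm P Q _ _
    exact ⟨D (cl R P Q X), hgen P (X2_clP P Q), hgen Q (X2_clQ P Q)⟩
  · rintro ⟨ζ, h1, h2⟩
    exact exists_deriv P Q ξ ζ h1 h2

end Pool.Agent.LibMX10
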