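import Pool.Agent.LibMX10.Defs

set_option autoImplicit false

/-! ROW X3 (SHORT/MEDIUM, Defs). If P, Q and the 2 x 2 minors generate 1 then the columns of the Jacobian matrix span X^2.
 The set of z ∈ X such that for all u v the vector (z u, z v) is a combination of the columns is an ideal I of X. It contains the classes of the minors: for columns (p, q), (p', q'):
   (p q' - p' q) (u, v) = (u q' - v p') (p, q) + (v p - u q) (p', q') (the coefficients ξ = Pi.single i _ + Pi.single j _, or ζ). IsSm gives 1 ∈ the ideal generated by P, Q and minors in O[X]; apply mk (P, Q ↦ 0): 1 ∈ I.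
   (comap of I under mk contains all generators: Ideal.span_le.) -/

namespace Pool.Agent.LibMX10

open Polynomial

private theorem X3_ideal {X : Type*} [CommRing X] {N : ℕ} (a b : Fin N → X) (a' b' : X) :
    ∃ I : Ideal X, ∀ z, z ∈ I ↔ ∀ u v : X, ∃ (ξ : Fin N → X) (ζ : X),
      (∑ j, ξ j * a j) + ζ * a' = z * u ∧ (∑ j, ξ j * b j) + ζ * b' = z * v := by
  have hadd : ∀ z w : X, (∀ u v : X, ∃ (ξ : Fin N → X) (ζ : X),
      (∑ j, ξ j * a j) + ζ * a' = z * u ∧ (∑ j, ξ j * b j) + ζ * b' = z * v) →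
      (∀ u v : X, ∃ (ξ : Fin N → X) (ζ : X),
      (∑ j, ξ j * a j) + ζ * a' = w * u ∧ (∑ j, ξ j * b j) + ζ * b' = w * v) →
      ∀ u v : X, ∃ (ξ : Fin N → X) (ζ : X),
      (∑ j, ξ j * a j) + ζ * a' = (z + w) * u ∧
        (∑ j, ξ j * b j) + ζ * b' = (z + w) * v := by
    intro z w hz hw u v
    obtain ⟨ξ, ζ, h1, h2⟩ := hz u v
    obtain ⟨ξ', ζ', h3, h4⟩ := hw u v
    refine ⟨fun j => ξ j + ξ' j, ζ + ζ', ?_, ?_⟩
    · simp only [add_mul, Finset.sum_add_distrib]
      linear_combination h1 + h3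
    · simp only [add_mul, Finset.sum_add_distrib]
      linear_combination h2 + h4
  have hsmul : ∀ c z : X, (∀ u v : X, ∃ (ξ : Fin N → X) (ζ : X),
      (∑ j, ξ j * a j) + ζ * a' = z * u ∧ (∑ j, ξ j * b j) + ζ * b' = z * v) →
      ∀ u v : X, ∃ (ξ : Fin N → X) (ζ : X),
      (∑ j, ξ j * a j) + ζ * a' = (c * z) * u ∧ (∑ j, ξ j * b j) + ζ * b' = (c * z) * v := by
    intro c z hz u v
    obtain ⟨ξ, ζ, h1, h2⟩ := hz (c * u) (c * v)
    refine ⟨ξ, ζ, ?_, ?_⟩
    · rw [h1]
      ring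
    · rw [h2]
      ring
  have hzero : ∀ u v : X, ∃ (ξ : Fin N → X) (ζ : X),
      (∑ j, ξ j * a j) + ζ * a' = 0 * u ∧ (∑ j, ξ j * b j) + ζ * b' = 0 * v := by
    intro u v
    refine ⟨fun _ => 0, 0, ?_, ?_⟩
    · simp only [zero_mul, Finset.sum_const_zero, add_zero]
    · simp only [zero_mul, Finset.sum_const_zero, add_zero]
  exact ⟨⟨⟨⟨{z | ∀ u v : X, ∃ (ξ : Fin N → X) (ζ : X),
      (∑ j, ξ j * a j) + ζ * a' = z * u ∧ (∑ j, ξ j * b j) + ζ * b' = z * v},
      fun {z w} hz hw => hadd z w hz hw⟩, hzero⟩, fun c {z} hz => hsmul c z hz⟩,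
    fun z => Iff.rfl⟩

private theorem X3_single {X : Type*} [CommRing X] {N : ℕ} (a : Fin N → X) (i : Fin N) (x : X) :
    ∑ l, (if l = i then x else 0) * a l = x * a i := by
  rw [Finset.sum_eq_single i]
  · rw [if_pos rfl]
  · intro l _ hl
    rw [if_neg hl, zero_mul]
  · intro h
    exact absurd (Finset.mem_univ i) h

private theorem X3_abs {X A : Type*} [CommRing X] [CommRing A] {N : ℕ} (a b : Fin N → X)
    (a' b' : X) (φ : A →+* X) (S : Set A) (hS : Ideal.span S = ⊤)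
    (hmem : ∀ z ∈ S, φ z = 0 ∨ (∃ i j, φ z = a i * b j - a j * b i) ∨
      ∃ j, φ z = a j * b' - a' * b j) (u v : X) :
    ∃ (ξ : Fin N → X) (ζ : X),
      (∑ j, ξ j * a j) + ζ * a' = u ∧ (∑ j, ξ j * b j) + ζ * b' = v := by
  obtain ⟨I, hI⟩ := X3_ideal a b a' b'
  have hle : Ideal.span S ≤ I.comap φ := by
    rw [Ideal.span_le]
    intro z hz
    show φ z ∈ I
    rcases hmem z hz with h | ⟨i, j, h⟩ | ⟨j, h⟩
    · rw [h]
      exact I.zero_mem
    · rw [h, hI]
      intro u v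
      refine ⟨fun l => (if l = i then u * b j - v * a j else 0) +
        (if l = j then v * a i - u * b i else 0), 0, ?_, ?_⟩
      · simp only [add_mul, Finset.sum_add_distrib]
        rw [X3_single, X3_single]
        ring
      · simp only [add_mul, Finset.sum_add_distrib]
        rw [X3_single, X3_single]
        ring
    · rw [h, hI]
      intro u v
      refine ⟨fun l => if l = j then u * b' - v * a' else 0, v * a j - u * b j, ?_, ?_⟩
      · rw [X3_single]
        ring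
      · rw [X3_single]
        ring
  have h1 : (1 : A) ∈ I.comap φ := by
    apply hle
    rw [hS]
    exact Submodule.mem_top
  have h3 : (1 : X) ∈ I := by
    have h4 : φ 1 ∈ I := h1
    rw [map_one] at h4
    exact h4
  obtain ⟨ξ, ζ, h5, h6⟩ := (hI 1).1 h3 u v
  exact ⟨ξ, ζ, by rw [h5, one_mul], by rw [h6, one_mul]⟩

theorem isSm2_of_isSm {R : Type*} [CommRing R] {N : ℕ} (P Q : (MvPowerSeries (Fin N) R)[X]) (h : IsSm R P Q) :
    IsSm2 R P Q := by
  have hP : Ideal.Quotient.mk (Ideal.span {P, Q}) P = 0 :=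
    Ideal.Quotient.eq_zero_iff_mem.2 (Ideal.subset_span (Set.mem_insert P {Q}))
  have hQ : Ideal.Quotient.mk (Ideal.span {P, Q}) Q = 0 :=
    Ideal.Quotient.eq_zero_iff_mem.2
      (Ideal.subset_span (Set.mem_insert_of_mem P (Set.mem_singleton Q)))
  intro u v
  refine X3_abs (fun j => cl R P Q (dj R j P)) (fun j => cl R P Q (dj R j Q))
    (cl R P Q (derivative P)) (cl R P Q (derivative Q)) (Ideal.Quotient.mk (Ideal.span {P, Q}))
    _ h ?_ u v
  rintro z ((hz | ⟨i, j, rfl⟩) | ⟨j, rfl⟩)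
  · refine Or.inl ?_
    rcases hz with hz | hz
    · rw [hz]
      exact hP
    · rw [Set.mem_singleton_iff.1 hz]
      exact hQ
  · refine Or.inr (Or.inl ⟨i, j, ?_⟩)
    exact (map_sub _ _ _).trans (congrArg₂ (fun x y => x - y) (map_mul _ _ _) (map_mul _ _ _))
  · refine Or.inr (Or.inr ⟨j, ?_⟩)
    exact (map_sub _ _ _).trans (congrArg₂ (fun x y => x - y) (map_mul _ _ _) (map_mul _ _ _))

end Pool.Agent.LibMX10
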