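import Pool.Agent.LibMX10.X2

set_option autoImplicit false

/-! ROW X4 (MEDIUM, X2). T1X = X^2 / NX. Φ : (Fin N → X) → X^2, Φ ξ = ![∑ ξ j * cl (dj Q), -(∑ ξ j * cl (dj P))], R-linear; compose with mkQ (NX).
 Surjective: given (a, b) in X^2, IsSm2 with u = -b, v = a gives ξ, ζ with ∑ ξ dQ = a - ζ Q', -(∑ ξ dP) = b + ζ P', so Φ ξ = (a, b) + (-ζ Q', ζ P') ≡ (a, b).
 Kernel = tfX ⊔ wfX: ≥: ξ ∈ tfX: ∃ ζ, Φ ξ = (-ζ Q', ζ P') ∈ NX; ξ_j = cl (C η_j): Φ ξ = ∑_j (second kind of generator). ≤: the elements of NX are (-c Q', c P') + ∑_j cl (C h_j) (dj Q, -dj P) (show by span_induction: note c ↦ and h ↦ are additive and R-linear);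
   if Φ ξ has this form then ξ - (cl (C h_j))_j satisfies the two relations with ζ = -c... (mem_tfX_iff), so ξ ∈ tfX ⊔ wfX.
 Then LinearMap.quotKerEquivOfSurjective and Submodule.quotEquivOfEq. -/

namespace Pool.Agent.LibMX10

open Polynomial

private theorem X4_smul {R : Type*} [CommRing R] {N : ℕ} (P Q : (MvPowerSeries (Fin N) R)[X]) (r : R)
    (h : MvPowerSeries (Fin N) R) : cl R P Q (C (r • h)) = r • cl R P Q (C h) := by
  rw [← smul_C]
  rfl

private theorem X4_zm {R : Type*} [CommRing R] {N : ℕ} (P Q : (MvPowerSeries (Fin N) R)[X])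
    (x : Src R P Q) : (0 : Src R P Q) * x = 0 := zero_mul x

private theorem X4_cl0 {R : Type*} [CommRing R] {N : ℕ} (P Q : (MvPowerSeries (Fin N) R)[X]) :
    cl R P Q (C 0) = 0 := by
  rw [C_0]
  exact map_zero _

private theorem X4_cl_add {R : Type*} [CommRing R] {N : ℕ} (P Q : (MvPowerSeries (Fin N) R)[X])
    (a b : MvPowerSeries (Fin N) R) : cl R P Q (C (a + b)) = cl R P Q (C a) + cl R P Q (C b) := by
  rw [C_add]
  exact map_add _ _ _

private theorem X4_sum0 {R : Type*} [CommRing R] {N : ℕ} (P Q : (MvPowerSeries (Fin N) R)[X])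
    (g : Fin N → Src R P Q) :
    ∑ i, cl R P Q (C ((0 : Fin N → MvPowerSeries (Fin N) R) i)) * g i = 0 :=
  Finset.sum_eq_zero fun i _ => by rw [Pi.zero_apply, X4_cl0, X4_zm]

private theorem X4_mem {R : Type*} [CommRing R] {N : ℕ} (P Q : (MvPowerSeries (Fin N) R)[X])
    (c : Src R P Q) (η : Fin N → MvPowerSeries (Fin N) R) :
    (![-(c * cl R P Q (derivative Q)) + ∑ j, cl R P Q (C (η j)) * cl R P Q (dj R j Q),
      c * cl R P Q (derivative P) - ∑ j, cl R P Q (C (η j)) * cl R P Q (dj R j P)] :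
      Fin 2 → Src R P Q) ∈ NX R P Q := by
  have e : (![-(c * cl R P Q (derivative Q)) + ∑ j, cl R P Q (C (η j)) * cl R P Q (dj R j Q),
      c * cl R P Q (derivative P) - ∑ j, cl R P Q (C (η j)) * cl R P Q (dj R j P)] :
      Fin 2 → Src R P Q) = ![-(c * cl R P Q (derivative Q)), c * cl R P Q (derivative P)] +
        ∑ j, ![cl R P Q (C (η j)) * cl R P Q (dj R j Q),
          -(cl R P Q (C (η j)) * cl R P Q (dj R j P))] := by
    funext i
    rw [Pi.add_apply, Finset.sum_apply]
    fin_cases i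
    · rfl
    · show _ - _ = _ + ∑ j, -(cl R P Q (C (η j)) * cl R P Q (dj R j P))
      rw [Finset.sum_neg_distrib, sub_eq_add_neg]
      rfl
  rw [e]
  refine Submodule.add_mem _ (Submodule.subset_span (Or.inl ⟨c, rfl⟩))
    (Submodule.sum_mem _ fun j _ => Submodule.subset_span (Or.inr ⟨j, η j, rfl⟩))

private theorem X4_form {R : Type*} [CommRing R] {N : ℕ} (P Q : (MvPowerSeries (Fin N) R)[X])
    {v : Fin 2 → Src R P Q} (hv : v ∈ NX R P Q) :
    ∃ (c : Src R P Q) (η : Fin N → MvPowerSeries (Fin N) R),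
      v 0 = -(c * cl R P Q (derivative Q)) + ∑ j, cl R P Q (C (η j)) * cl R P Q (dj R j Q) ∧
      v 1 = c * cl R P Q (derivative P) - ∑ j, cl R P Q (C (η j)) * cl R P Q (dj R j P) := by
  classical
  refine Submodule.span_induction (p := fun v _ => ∃ (c : Src R P Q)
      (η : Fin N → MvPowerSeries (Fin N) R),
      v 0 = -(c * cl R P Q (derivative Q)) + ∑ j, cl R P Q (C (η j)) * cl R P Q (dj R j Q) ∧
      v 1 = c * cl R P Q (derivative P) - ∑ j, cl R P Q (C (η j)) * cl R P Q (dj R j P))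
    ?_ ?_ ?_ ?_ hv
  · rintro v (⟨c, rfl⟩ | ⟨j, h, rfl⟩)
    · refine ⟨c, 0, ?_, ?_⟩
      · rw [X4_sum0 P Q (fun i => cl R P Q (dj R i Q)), add_zero]
        rfl
      · rw [X4_sum0 P Q (fun i => cl R P Q (dj R i P)), sub_zero]
        rfl
    · have key : ∀ g : Fin N → Src R P Q,
          ∑ i, cl R P Q (C ((Pi.single j h : Fin N → MvPowerSeries (Fin N) R) i)) * g i =
            cl R P Q (C h) * g j := by
        intro g
        rw [Finset.sum_eq_single j]
        · rw [Pi.single_eq_same]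
        · intro b _ hb
          rw [Pi.single_eq_of_ne hb, X4_cl0, X4_zm]
        · intro hj
          exact absurd (Finset.mem_univ j) hj
      refine ⟨0, Pi.single j h, ?_, ?_⟩
      · rw [key (fun i => cl R P Q (dj R i Q)), X4_zm, neg_zero, zero_add]
        rfl
      · rw [key (fun i => cl R P Q (dj R i P)), X4_zm, zero_sub]
        rfl
  · refine ⟨0, 0, ?_, ?_⟩
    · rw [X4_sum0 P Q (fun i => cl R P Q (dj R i Q)), X4_zm, neg_zero, add_zero]
      rfl
    · rw [X4_sum0 P Q (fun i => cl R P Q (dj R i P)), X4_zm, sub_zero]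
      rfl
  · rintro x y _ _ ⟨c, η, h1, h2⟩ ⟨c', η', h3, h4⟩
    have key : ∀ g : Fin N → Src R P Q, ∑ i, cl R P Q (C ((η + η') i)) * g i =
        ∑ i, cl R P Q (C (η i)) * g i + ∑ i, cl R P Q (C (η' i)) * g i := by
      intro g
      rw [← Finset.sum_add_distrib]
      refine Finset.sum_congr rfl fun i _ => ?_
      rw [Pi.add_apply, X4_cl_add, add_mul]
    refine ⟨c + c', η + η', ?_, ?_⟩
    · rw [Pi.add_apply, h1, h3, key (fun i => cl R P Q (dj R i Q))]
      ring
    · rw [Pi.add_apply, h2, h4, key (fun i => cl R P Q (dj R i P))]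
      ring
  · rintro r x _ ⟨c, η, h1, h2⟩
    have key : ∀ g : Fin N → Src R P Q, ∑ i, cl R P Q (C ((r • η) i)) * g i =
        r • ∑ i, cl R P Q (C (η i)) * g i := by
      intro g
      rw [Finset.smul_sum]
      refine Finset.sum_congr rfl fun i _ => ?_
      rw [Pi.smul_apply, X4_smul, smul_mul_assoc]
    refine ⟨r • c, r • η, ?_, ?_⟩
    · rw [Pi.smul_apply, h1, key (fun i => cl R P Q (dj R i Q)), smul_add, smul_neg,
        smul_mul_assoc]
    · rw [Pi.smul_apply, h2, key (fun i => cl R P Q (dj R i P)), smul_sub, smul_mul_assoc]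

/-- the map `ξ ↦ (∑ ξ dQ, -∑ ξ dP)` -/
private noncomputable def X4_Phi {R : Type*} [CommRing R] {N : ℕ}
    (P Q : (MvPowerSeries (Fin N) R)[X]) : (Fin N → Src R P Q) →ₗ[R] (Fin 2 → Src R P Q) where
  toFun ξ := ![∑ j, ξ j * cl R P Q (dj R j Q), -(∑ j, ξ j * cl R P Q (dj R j P))]
  map_add' := by
    intro ξ η
    funext i
    fin_cases i
    · show ∑ j, (ξ j + η j) * cl R P Q (dj R j Q) =
        ∑ j, ξ j * cl R P Q (dj R j Q) + ∑ j, η j * cl R P Q (dj R j Q)
      rw [← Finset.sum_add_distrib]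
      exact Finset.sum_congr rfl fun j _ => add_mul _ _ _
    · show -(∑ j, (ξ j + η j) * cl R P Q (dj R j P)) =
        -(∑ j, ξ j * cl R P Q (dj R j P)) + -(∑ j, η j * cl R P Q (dj R j P))
      rw [← neg_add, ← Finset.sum_add_distrib]
      exact congrArg _ (Finset.sum_congr rfl fun j _ => add_mul _ _ _)
  map_smul' := by
    intro r ξ
    funext i
    fin_cases i
    · show ∑ j, (r • ξ j) * cl R P Q (dj R j Q) = r • ∑ j, ξ j * cl R P Q (dj R j Q)
      rw [Finset.smul_sum]
      exact Finset.sum_congr rfl fun j _ => smul_mul_assoc _ _ _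
    · show -(∑ j, (r • ξ j) * cl R P Q (dj R j P)) = r • -(∑ j, ξ j * cl R P Q (dj R j P))
      rw [smul_neg, Finset.smul_sum]
      exact congrArg _ (Finset.sum_congr rfl fun j _ => smul_mul_assoc _ _ _)

private theorem X4_Phi0 {R : Type*} [CommRing R] {N : ℕ}
    (P Q : (MvPowerSeries (Fin N) R)[X]) (ξ : Fin N → Src R P Q) :
    X4_Phi P Q ξ 0 = ∑ j, ξ j * cl R P Q (dj R j Q) := rfl

private theorem X4_Phi1 {R : Type*} [CommRing R] {N : ℕ}
    (P Q : (MvPowerSeries (Fin N) R)[X]) (ξ : Fin N → Src R P Q) :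
    X4_Phi P Q ξ 1 = -(∑ j, ξ j * cl R P Q (dj R j P)) := rfl

theorem T1X_equiv {R : Type*} [CommRing R] [IsLocalRing R] [IsNoetherianRing R] {N : ℕ}
    (P Q : (MvPowerSeries (Fin N) R)[X]) (hP : P.Monic) (h : IsSm2 R P Q) :
    Nonempty (T1X R P Q ≃ₗ[R] ((Fin 2 → Src R P Q) ⧸ NX R P Q)) := by
  have hsurj : Function.Surjective ((NX R P Q).mkQ.comp (X4_Phi P Q)) := by
    intro w
    obtain ⟨v, rfl⟩ := Submodule.mkQ_surjective _ w
    obtain ⟨ξ, ζ, h1, h2⟩ := h (-(v 1)) (v 0)
    refine ⟨ξ, ?_⟩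
    rw [LinearMap.comp_apply, Submodule.mkQ_apply, Submodule.mkQ_apply, Submodule.Quotient.eq]
    have e : X4_Phi P Q ξ - v = ![-(ζ * cl R P Q (derivative Q)),
        ζ * cl R P Q (derivative P)] := by
      funext i
      fin_cases i
      · show X4_Phi P Q ξ 0 - v 0 = -(ζ * cl R P Q (derivative Q))
        rw [X4_Phi0, ← h2]
        ring
      · show X4_Phi P Q ξ 1 - v 1 = ζ * cl R P Q (derivative P)
        have h3 : v 1 = -((∑ j, ξ j * cl R P Q (dj R j P)) + ζ * cl R P Q (derivative P)) := by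
          rw [h1, neg_neg]
        rw [X4_Phi1, h3]
        ring
    rw [e]
    exact Submodule.subset_span (Or.inl ⟨ζ, rfl⟩)
  have hker : tfX R P Q ⊔ wfX R P Q = LinearMap.ker ((NX R P Q).mkQ.comp (X4_Phi P Q)) := by
    apply le_antisymm
    · rw [sup_le_iff]
      constructor
      · intro ξ hξ
        rw [LinearMap.mem_ker, LinearMap.comp_apply, Submodule.mkQ_apply,
          Submodule.Quotient.mk_eq_zero]
        rw [mem_tfX_iff P Q hP] at hξ
        obtain ⟨ζ, h1, h2⟩ := hξ
        have e : X4_Phi P Q ξ = ![-(ζ * cl R P Q (derivative Q)),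
            ζ * cl R P Q (derivative P)] := by
          funext i
          fin_cases i
          · exact eq_neg_of_add_eq_zero_left h2
          · show X4_Phi P Q ξ 1 = ζ * cl R P Q (derivative P)
            rw [X4_Phi1, eq_neg_of_add_eq_zero_left h1, neg_neg]
        rw [e]
        exact Submodule.subset_span (Or.inl ⟨ζ, rfl⟩)
      · intro ξ hξ
        rw [LinearMap.mem_ker, LinearMap.comp_apply, Submodule.mkQ_apply,
          Submodule.Quotient.mk_eq_zero]
        obtain ⟨η, hη⟩ := hξ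
        have hm := X4_mem P Q 0 η
        have e : X4_Phi P Q ξ = ![-(0 * cl R P Q (derivative Q)) +
            ∑ j, cl R P Q (C (η j)) * cl R P Q (dj R j Q),
            0 * cl R P Q (derivative P) -
            ∑ j, cl R P Q (C (η j)) * cl R P Q (dj R j P)] := by
          funext i
          fin_cases i
          · show X4_Phi P Q ξ 0 = -(0 * cl R P Q (derivative Q)) +
              ∑ j, cl R P Q (C (η j)) * cl R P Q (dj R j Q)
            rw [X4_Phi0, X4_zm, neg_zero, zero_add]
            exact Finset.sum_congr rfl fun j _ => by rw [hη j]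
          · show X4_Phi P Q ξ 1 = 0 * cl R P Q (derivative P) -
              ∑ j, cl R P Q (C (η j)) * cl R P Q (dj R j P)
            rw [X4_Phi1, X4_zm, zero_sub]
            exact congrArg _ (Finset.sum_congr rfl fun j _ => by rw [hη j])
        rw [e]
        exact hm
    · intro ξ hξ
      rw [LinearMap.mem_ker, LinearMap.comp_apply, Submodule.mkQ_apply,
        Submodule.Quotient.mk_eq_zero] at hξ
      obtain ⟨c, η, h1, h2⟩ := X4_form P Q hξ
      rw [X4_Phi0] at h1
      rw [X4_Phi1] at h2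
      have key : ∀ g : Fin N → Src R P Q, ∑ j, (ξ j - cl R P Q (C (η j))) * g j =
          ∑ j, ξ j * g j - ∑ j, cl R P Q (C (η j)) * g j := by
        intro g
        rw [← Finset.sum_sub_distrib]
        refine Finset.sum_congr rfl fun j _ => ?_
        ring
      have hmem1 : (fun j => ξ j - cl R P Q (C (η j))) ∈ tfX R P Q := by
        rw [mem_tfX_iff P Q hP]
        refine ⟨c, ?_, ?_⟩
        · rw [key (fun j => cl R P Q (dj R j P))]
          have h3 : ∑ j, ξ j * cl R P Q (dj R j P) =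
              -(c * cl R P Q (derivative P) -
                ∑ j, cl R P Q (C (η j)) * cl R P Q (dj R j P)) := by
            rw [← h2, neg_neg]
          rw [h3]
          ring
        · rw [key (fun j => cl R P Q (dj R j Q)), h1]
          ring
      have hmem2 : (fun j => cl R P Q (C (η j))) ∈ wfX R P Q := ⟨η, fun j => rfl⟩
      have e : ξ = (fun j => ξ j - cl R P Q (C (η j))) + (fun j => cl R P Q (C (η j))) := by
        funext j
        rw [Pi.add_apply, sub_add_cancel]
      rw [e]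
      exact Submodule.add_mem_sup hmem1 hmem2
  exact ⟨(Submodule.quotEquivOfEq _ _ hker).trans
    (LinearMap.quotKerEquivOfSurjective _ hsurj)⟩

end Pool.Agent.LibMX10
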