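import Pool.Agent.LibMX10.Defs

set_option autoImplicit false

/-! ROW X5 (MEDIUM, Defs). VV P / WN = X^2 / NX. Same as row B6a of LibMF6 (T1_a) with evO replaced by cl : O[X] → X (surjective, kernel (P, Q) by definition).
 Let κ : AdjoinRoot P →+* X (Ideal.Quotient.factor / AdjoinRoot.lift: P ∈ (P, Q)), κ (mk H) = cl H, surjective, kernel = multiples of mk Q (Ideal.mem_span_pair).
 Φ : VV P → X^2, v ↦ ![κ v_1, κ v_2], R-linear, surjective. Φ⁻¹(NX) = WN:
  ≥: generators of WN: e0 b ↦ 0; b • K1 ↦ (κ b cl Q, 0) = 0; b • K2 ↦ 0; b • K3 ↦ κ b (-Q', P') ∈ NX; wv j ↦ (cl dj Q, -cl dj P) ∈ NX. WN is an O-submodule: for h ∈ O: Φ(h v) = cl (C h) Φ(v), and NX is stable under cl (C h).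
  ≤: if Φ v ∈ NX, subtract elements of WN mapping to the generators (b with κ b = c; h • wv j) to reach Φ v = 0: v_1, v_2 ∈ q B: v = (v_0, q b_1, q b_2) ∈ WN by K1, K2 and the e0 b.
 Quotient isomorphism R-linear. -/

namespace Pool.Agent.LibMX10

open Polynomial Pool.Agent.LibMF6

section X5

variable {R : Type*} [CommRing R] {N : ℕ} (P Q : (MvPowerSeries (Fin N) R)[X])

/-- `NX` is stable under the classes of constants -/
private theorem X5_stable (h : MvPowerSeries (Fin N) R) (y : Fin 2 → Src R P Q)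
    (hy : y ∈ NX R P Q) : (fun i => cl R P Q (C h) * y i) ∈ NX R P Q := by
  unfold NX at hy ⊢
  induction hy using Submodule.span_induction with
  | mem x hx =>
    apply Submodule.subset_span
    rcases hx with ⟨c, rfl⟩ | ⟨j, h', rfl⟩
    · left
      refine ⟨cl R P Q (C h) * c, ?_⟩
      funext i
      fin_cases i
      · change cl R P Q (C h) * -(c * cl R P Q (derivative Q)) = -(cl R P Q (C h) * c * cl R P Q (derivative Q))
        ring
      · change cl R P Q (C h) * (c * cl R P Q (derivative P)) = cl R P Q (C h) * c * cl R P Q (derivative P)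
        ring
    · right
      refine ⟨j, h * h', ?_⟩
      have e : cl R P Q (C (h * h')) = cl R P Q (C h) * cl R P Q (C h') := by
        rw [C_mul]
        exact map_mul (Ideal.Quotient.mk (Ideal.span {P, Q})) _ _
      rw [e]
      funext i
      fin_cases i
      · change cl R P Q (C h) * (cl R P Q (C h') * cl R P Q (dj R j Q)) =
          cl R P Q (C h) * cl R P Q (C h') * cl R P Q (dj R j Q)
        ring
      · change cl R P Q (C h) * -(cl R P Q (C h') * cl R P Q (dj R j P)) =
          -(cl R P Q (C h) * cl R P Q (C h') * cl R P Q (dj R j P))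
        ring
  | zero =>
    have : (fun i => cl R P Q (C h) * (0 : Fin 2 → Src R P Q) i) = 0 := by
      funext i
      exact mul_zero (M₀ := Src R P Q) _
    rw [this]
    exact Submodule.zero_mem _
  | add x y _ _ h1 h2 =>
    have : (fun i => cl R P Q (C h) * (x + y) i) =
        (fun i => cl R P Q (C h) * x i) + fun i => cl R P Q (C h) * y i := by
      funext i
      exact mul_add (R := Src R P Q) _ _ _
    rw [this]
    exact Submodule.add_mem _ h1 h2
  | smul r x _ h1 =>
    have : (fun i => cl R P Q (C h) * (r • x) i) = r • fun i => cl R P Q (C h) * x i := by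
      funext i
      change cl R P Q (C h) * (r • x i) = r • (cl R P Q (C h) * x i)
      exact mul_smul_comm r (cl R P Q (C h)) (x i)
    rw [this]
    exact Submodule.smul_mem _ _ h1

private theorem X5_P0 : cl R P Q P = 0 := Ideal.Quotient.eq_zero_iff_mem.2 (Ideal.subset_span (by simp))

private theorem X5_Q0 : cl R P Q Q = 0 := Ideal.Quotient.eq_zero_iff_mem.2 (Ideal.subset_span (by simp))

/-- the evaluation on `B` -/
private noncomputable def X5_kap : AdjoinRoot P →+* Src R P Q :=
  Ideal.Quotient.lift (Ideal.span {P}) (Ideal.Quotient.mk (Ideal.span {P, Q})) (by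
    intro a ha
    obtain ⟨b, rfl⟩ := Ideal.mem_span_singleton'.1 ha
    have h0 : (Ideal.Quotient.mk (Ideal.span {P, Q})) P = 0 := X5_P0 P Q
    exact (map_mul _ b P).trans ((congrArg (fun z => Ideal.Quotient.mk (Ideal.span {P, Q}) b * z) h0).trans
      (mul_zero (M₀ := (MvPowerSeries (Fin N) R)[X] ⧸ Ideal.span {P, Q}) _)))

private theorem X5_kap_mk (H : (MvPowerSeries (Fin N) R)[X]) :
    X5_kap P Q (AdjoinRoot.mk P H) = cl R P Q H := rfl

private theorem X5_kap_smul (h : MvPowerSeries (Fin N) R) (z : AdjoinRoot P) :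
    X5_kap P Q (h • z) = cl R P Q (C h) * X5_kap P Q z := by
  rw [Algebra.smul_def, map_mul]
  rfl

private theorem X5_kap_smulR (r : R) (z : AdjoinRoot P) :
    X5_kap P Q (r • z) = r • X5_kap P Q z := by
  obtain ⟨H, rfl⟩ := AdjoinRoot.mk_surjective z
  rfl

/-- the map `Φ` -/
private noncomputable def X5_Phi : VV P →ₗ[R] (Fin 2 → Src R P Q) where
  toFun v := ![X5_kap P Q (v 1), X5_kap P Q (v 2)]
  map_add' v w := by
    funext i
    fin_cases i <;> simp
  map_smul' r v := by
    funext i
    fin_cases i <;> simp [X5_kap_smulR]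

private theorem X5_Phi_apply (v : VV P) : X5_Phi P Q v = ![X5_kap P Q (v 1), X5_kap P Q (v 2)] := rfl

private theorem X5_Phi_smul (h : MvPowerSeries (Fin N) R) (v : VV P) :
    X5_Phi P Q (h • v) = fun i => cl R P Q (C h) * X5_Phi P Q v i := by
  rw [X5_Phi_apply, X5_Phi_apply]
  funext i
  fin_cases i
  · exact X5_kap_smul P Q h (v 1)
  · exact X5_kap_smul P Q h (v 2)

/-- preimage of `NX` as an `O`-submodule -/
private noncomputable def X5_pre : Submodule (MvPowerSeries (Fin N) R) (VV P) where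
  carrier := {v | X5_Phi P Q v ∈ NX R P Q}
  add_mem' := by
    intro v w hv hw
    change X5_Phi P Q (v + w) ∈ NX R P Q
    rw [map_add]
    exact Submodule.add_mem _ hv hw
  zero_mem' := by
    change X5_Phi P Q 0 ∈ NX R P Q
    rw [map_zero]
    exact Submodule.zero_mem _
  smul_mem' := by
    intro h v hv
    change X5_Phi P Q (h • v) ∈ NX R P Q
    rw [X5_Phi_smul]
    exact X5_stable P Q h _ hv

private theorem X5_mem_pre (v : VV P) : v ∈ X5_pre P Q ↔ X5_Phi P Q v ∈ NX R P Q := Iff.rfl

private theorem X5_le (hM : P.Monic) (l : Fin N → MvPowerSeries (Fin N) R) :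
    WN P Q hM (fun j z => MvPowerSeries.pderiv R j z) l ≤ X5_pre P Q := by
  have hQ := X5_Q0 P Q
  unfold WN WM W0
  refine sup_le (sup_le ?_ ?_) ?_
  · rw [Submodule.span_le]
    rintro v (⟨c, rfl⟩ | ⟨c, rfl⟩ | ⟨c, rfl⟩ | ⟨c, _, rfl⟩)
    · rw [SetLike.mem_coe, X5_mem_pre, X5_Phi_apply]
      have : (![X5_kap P Q ((c • K1 P Q) 1), X5_kap P Q ((c • K1 P Q) 2)] :
          Fin 2 → Src R P Q) = 0 := by
        funext i
        fin_cases i
        · change X5_kap P Q (c * AdjoinRoot.mk P Q) = 0
          rw [map_mul, X5_kap_mk, hQ]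
          exact mul_zero (M₀ := Src R P Q) _
        · change X5_kap P Q (c * 0) = 0
          rw [mul_zero, map_zero]
      rw [this]
      exact Submodule.zero_mem _
    · rw [SetLike.mem_coe, X5_mem_pre, X5_Phi_apply]
      have : (![X5_kap P Q ((c • K2 P Q) 1), X5_kap P Q ((c • K2 P Q) 2)] :
          Fin 2 → Src R P Q) = 0 := by
        funext i
        fin_cases i
        · change X5_kap P Q (c * 0) = 0
          rw [mul_zero, map_zero]
        · change X5_kap P Q (c * AdjoinRoot.mk P Q) = 0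
          rw [map_mul, X5_kap_mk, hQ]
          exact mul_zero (M₀ := Src R P Q) _
      rw [this]
      exact Submodule.zero_mem _
    · rw [SetLike.mem_coe, X5_mem_pre, X5_Phi_apply]
      apply Submodule.subset_span
      left
      refine ⟨X5_kap P Q c, ?_⟩
      funext i
      fin_cases i <;> simp [K3, X5_kap_mk]
    · rw [SetLike.mem_coe, X5_mem_pre, X5_Phi_apply]
      have : (![X5_kap P Q ((e0 P c) 1), X5_kap P Q ((e0 P c) 2)] :
          Fin 2 → Src R P Q) = 0 := by
        funext i
        fin_cases i <;> simp [e0]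
      rw [this]
      exact Submodule.zero_mem _
  · rw [Submodule.span_le]
    rintro v ⟨j, rfl⟩
    rw [SetLike.mem_coe, X5_mem_pre, X5_Phi_apply]
    apply Submodule.subset_span
    right
    refine ⟨j, 1, ?_⟩
    have e : cl R P Q (C 1) = 1 := by
      rw [C_1]
      exact map_one (Ideal.Quotient.mk (Ideal.span {P, Q}))
    rw [e]
    funext i
    fin_cases i
    · exact (one_mul (M := Src R P Q) _).symm
    · change X5_kap P Q (-AdjoinRoot.mk P (dC (fun z => MvPowerSeries.pderiv R j z) P)) = _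
      rw [map_neg]
      exact congrArg (fun z => -z) (one_mul (M := Src R P Q) _).symm
  · rw [Submodule.span_le]
    rintro v ⟨c, rfl⟩
    rw [SetLike.mem_coe, X5_mem_pre, X5_Phi_apply]
    have : (![X5_kap P Q ((e0 P c) 1), X5_kap P Q ((e0 P c) 2)] :
        Fin 2 → Src R P Q) = 0 := by
      funext i
      fin_cases i <;> simp [e0]
    rw [this]
    exact Submodule.zero_mem _

private theorem X5_W0 (hM : P.Monic) (l : Fin N → MvPowerSeries (Fin N) R) {v : VV P}
    (hv : v ∈ W0 P Q hM) : v ∈ WN P Q hM (fun j z => MvPowerSeries.pderiv R j z) l :=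
  Submodule.mem_sup_left (Submodule.mem_sup_left hv)

/-- the kernel of `Φ` -/
private theorem X5_ker (hM : P.Monic) (l : Fin N → MvPowerSeries (Fin N) R) (v : VV P)
    (hv : X5_Phi P Q v = 0) : v ∈ WN P Q hM (fun j z => MvPowerSeries.pderiv R j z) l := by
  have hk : ∀ z : AdjoinRoot P, X5_kap P Q z = 0 →
      ∃ c : AdjoinRoot P, z = c * AdjoinRoot.mk P Q := by
    intro z hz
    obtain ⟨H, rfl⟩ := AdjoinRoot.mk_surjective z
    rw [X5_kap_mk, Ideal.Quotient.eq_zero_iff_mem, Ideal.mem_span_pair] at hz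
    obtain ⟨s, t, rfl⟩ := hz
    refine ⟨AdjoinRoot.mk P t, ?_⟩
    rw [map_add, map_mul, map_mul, AdjoinRoot.mk_self, mul_zero, zero_add]
  rw [X5_Phi_apply] at hv
  obtain ⟨c1, h1⟩ := hk (v 1) (by simpa using congrFun hv 0)
  obtain ⟨c2, h2⟩ := hk (v 2) (by simpa using congrFun hv 1)
  have e1 : v = c1 • K1 P Q + c2 • K2 P Q +
      e0 P (v 0 + c1 * AdjoinRoot.mk P (derivative P) + c2 * AdjoinRoot.mk P (derivative Q)) := by
    funext i
    fin_cases i
    · simp [K1, K2, e0]
      ring
    · simp [K1, K2, e0, h1]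
    · simp [K1, K2, e0, h2]
  rw [e1]
  refine Submodule.add_mem _ (Submodule.add_mem _ ?_ ?_) ?_
  · exact X5_W0 P Q hM l (Submodule.subset_span (Or.inl ⟨c1, rfl⟩))
  · exact X5_W0 P Q hM l (Submodule.subset_span (Or.inr (Or.inl ⟨c2, rfl⟩)))
  · exact Submodule.mem_sup_right (Submodule.subset_span ⟨_, rfl⟩)

private theorem X5_surj (z : Src R P Q) : ∃ c, X5_kap P Q c = z := by
  obtain ⟨H, rfl⟩ := Ideal.Quotient.mk_surjective z
  exact ⟨AdjoinRoot.mk P H, rfl⟩

/-- every element of `NX` is the image of an element of `WN` -/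
private theorem X5_NX_le (hM : P.Monic) (l : Fin N → MvPowerSeries (Fin N) R) :
    NX R P Q ≤ Submodule.map (X5_Phi P Q)
      ((WN P Q hM (fun j z => MvPowerSeries.pderiv R j z) l).restrictScalars R) := by
  refine Submodule.span_le.2 ?_
  rintro y (⟨c, rfl⟩ | ⟨j, h, rfl⟩)
  · obtain ⟨c, rfl⟩ := X5_surj P Q c
    rw [SetLike.mem_coe, Submodule.mem_map]
    refine ⟨c • K3 P Q, ?_, ?_⟩
    · exact X5_W0 P Q hM l (Submodule.subset_span (Or.inr (Or.inr (Or.inl ⟨c, rfl⟩))))
    · rw [X5_Phi_apply]
      funext i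
      fin_cases i <;> simp [K3, X5_kap_mk]
  · rw [SetLike.mem_coe, Submodule.mem_map]
    refine ⟨h • wv P Q (fun z => MvPowerSeries.pderiv R j z) (l j), ?_, ?_⟩
    · have h5 : wv P Q (fun z => MvPowerSeries.pderiv R j z) (l j) ∈
          Submodule.span (MvPowerSeries (Fin N) R)
            (Set.range fun j => wv P Q ((fun j z => MvPowerSeries.pderiv R j z) j) (l j)) :=
        Submodule.subset_span ⟨j, rfl⟩
      have h6 : wv P Q (fun z => MvPowerSeries.pderiv R j z) (l j) ∈
          WN P Q hM (fun j z => MvPowerSeries.pderiv R j z) l :=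
        Submodule.mem_sup_left (Submodule.mem_sup_right h5)
      exact Submodule.smul_mem (WN P Q hM (fun j z => MvPowerSeries.pderiv R j z) l) h h6
    · rw [X5_Phi_smul, X5_Phi_apply]
      funext i
      fin_cases i
      · rfl
      · change cl R P Q (C h) * X5_kap P Q (-AdjoinRoot.mk P (dC (fun z => MvPowerSeries.pderiv R j z) P)) = _
        rw [map_neg, X5_kap_mk]
        change cl R P Q (C h) * -(cl R P Q (dj R j P)) = -(cl R P Q (C h) * cl R P Q (dj R j P))
        ring

end X5

theorem VV_equiv {R : Type*} [CommRing R] {N : ℕ} (P Q : (MvPowerSeries (Fin N) R)[X]) (hP : P.Monic)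
    (l : Fin N → MvPowerSeries (Fin N) R) :
    Nonempty ((VV P ⧸ WN P Q hP (fun j z => MvPowerSeries.pderiv R j z) l) ≃ₗ[R]
      ((Fin 2 → Src R P Q) ⧸ NX R P Q)) := by
  set Φ := X5_Phi P Q with hΦ
  have hsurjΦ : Function.Surjective Φ := by
    intro y
    obtain ⟨c1, h1⟩ := X5_surj P Q (y 0)
    obtain ⟨c2, h2⟩ := X5_surj P Q (y 1)
    refine ⟨![0, c1, c2], ?_⟩
    rw [hΦ, X5_Phi_apply]
    funext i
    fin_cases i
    · simp [h1]
    · simp [h2]
  set f := (NX R P Q).mkQ.comp Φ with hf
  have hfs : Function.Surjective f := (Submodule.mkQ_surjective _).comp hsurjΦ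
  have hk : (WN P Q hP (fun j z => MvPowerSeries.pderiv R j z) l).restrictScalars R = LinearMap.ker f := by
    apply le_antisymm
    · intro v hv
      rw [LinearMap.mem_ker, hf, LinearMap.comp_apply, Submodule.mkQ_apply,
        Submodule.Quotient.mk_eq_zero]
      exact X5_le P Q hP l hv
    · intro v hv
      rw [LinearMap.mem_ker, hf, LinearMap.comp_apply, Submodule.mkQ_apply,
        Submodule.Quotient.mk_eq_zero] at hv
      obtain ⟨w, hw, hwv⟩ := X5_NX_le P Q hP l hv
      have h3 : v - w ∈ WN P Q hP (fun j z => MvPowerSeries.pderiv R j z) l := by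
        apply X5_ker P Q hP l
        rw [map_sub, hwv, sub_self]
      have h4 : v = (v - w) + w := by abel
      rw [h4]
      exact Submodule.add_mem _ h3 hw
  exact ⟨(Submodule.Quotient.restrictScalarsEquiv R _).symm.trans
    ((Submodule.quotEquivOfEq _ _ hk).trans (f.quotKerEquivOfSurjective hfs))⟩

end Pool.Agent.LibMX10
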