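import Pool.Agent.LibMX10.Defs
import Pool.Agent.LibMF6.A0

set_option autoImplicit false

/-! ROW X6 (MEDIUM, Defs, LibMF6.A0). The Jacobian criterion for the special fibre implies it for the family.
 O = MvPowerSeries (Fin N) (PowerSeries k) is local, sp k : O → O₀ surjective with kernel in the maximal ideal. Let I = the ideal of O[X] generated by P, Q and the minors. map (sp) of the generators = the generators for P₀, Q₀ (dC_map of A0, Polynomial.derivative_map,
   sp (pderiv j z) = pderiv j (sp z): compare coefficients), so I.map (mapRingHom sp) = ⊤, hence 1 = i + h, i ∈ I, h ∈ O[X] with all coefficients in the kernel of sp (Ideal.mem_map_iff_of_surjective; kernel of mapRingHom).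
 B := O[X]/(P) is a finite O-module (P monic), and the submodule I/(P) satisfies I/(P) + 𝔪 B = B: (every f = f i + f h, f h ∈ 𝔪 O[X]). Nakayama (Submodule.le_of_le_smul_of_le_jacobson_bot): I/(P) = B, 1 ∈ I. -/

namespace Pool.Agent.LibMX10

open Polynomial Pool.Agent.LibMF6

theorem isSm_of_special {k : Type*} [Field k] {N : ℕ} (P Q : (MvPowerSeries (Fin N) (PowerSeries k))[X]) (hP : P.Monic)
    (h : IsSm k (P.map (sp k)) (Q.map (sp k))) : IsSm (PowerSeries k) P Q := by
  classical
  have hder : ∀ (j : Fin N) (c : MvPowerSeries (Fin N) (PowerSeries k)),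
      sp k (MvPowerSeries.pderiv (PowerSeries k) j c) = MvPowerSeries.pderiv k j (sp k c) := by
    intro j c
    ext e
    simp [sp, MvPowerSeries.coeff_pderiv]
  have hdj : ∀ (j : Fin N) (H : (MvPowerSeries (Fin N) (PowerSeries k))[X]),
      dj k j (H.map (sp k)) = (dj (PowerSeries k) j H).map (sp k) := fun j H =>
    (dC_map (MvPowerSeries.pderiv (PowerSeries k) j) (MvPowerSeries.pderiv k j) (sp k) (hder j) H).symm
  have hsur : Function.Surjective (sp k (σ := Fin N)) := by
    intro y
    refine ⟨MvPowerSeries.map PowerSeries.C y, ?_⟩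
    ext e
    simp [sp]
  unfold IsSm at h ⊢
  set I : Ideal (MvPowerSeries (Fin N) (PowerSeries k))[X] := Ideal.span ({P, Q} ∪
    {z | ∃ i j : Fin N, z = dj (PowerSeries k) i P * dj (PowerSeries k) j Q -
      dj (PowerSeries k) j P * dj (PowerSeries k) i Q} ∪
    {z | ∃ j : Fin N, z = dj (PowerSeries k) j P * derivative Q - derivative P * dj (PowerSeries k) j Q}) with hI
  have hle : (⊤ : Ideal (MvPowerSeries (Fin N) k)[X]) ≤ I.map (Polynomial.mapRingHom (sp k)) := by
    rw [← h, Ideal.span_le]
    have hmem : ∀ z ∈ I, z.map (sp k) ∈ I.map (Polynomial.mapRingHom (sp k)) := fun z hz =>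
      Ideal.mem_map_of_mem (Polynomial.mapRingHom (sp k)) hz
    rintro z ((hz | hz) | hz)
    · rcases hz with rfl | hz
      · exact hmem P (Ideal.subset_span (Or.inl (Or.inl (Or.inl rfl))))
      · rw [Set.mem_singleton_iff] at hz
        subst hz
        exact hmem Q (Ideal.subset_span (Or.inl (Or.inl (Or.inr rfl))))
    · obtain ⟨i, j, rfl⟩ := hz
      rw [hdj, hdj, hdj, hdj, ← Polynomial.map_mul, ← Polynomial.map_mul, ← Polynomial.map_sub]
      exact hmem _ (Ideal.subset_span (Or.inl (Or.inr ⟨i, j, rfl⟩)))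
    · obtain ⟨j, rfl⟩ := hz
      rw [hdj, hdj, Polynomial.derivative_map, Polynomial.derivative_map, ← Polynomial.map_mul,
        ← Polynomial.map_mul, ← Polynomial.map_sub]
      exact hmem _ (Ideal.subset_span (Or.inr ⟨j, rfl⟩))
  obtain ⟨x, hxI, hx1⟩ := (Ideal.mem_map_iff_of_surjective (Polynomial.mapRingHom (sp k))
    (Polynomial.map_surjective _ hsur)).1 (hle (Submodule.mem_top : (1 : (MvPowerSeries (Fin N) k)[X]) ∈ _))
  have hx2 : ∀ i, sp k ((1 - x).coeff i) = 0 := by
    intro i
    have h2 : (1 - x).map (sp k) = 0 := by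
      rw [Polynomial.map_sub, Polynomial.map_one]
      exact sub_eq_zero.2 hx1.symm
    rw [← Polynomial.coeff_map, h2, Polynomial.coeff_zero]
  have hmax : ∀ c : MvPowerSeries (Fin N) (PowerSeries k), sp k c = 0 →
      c ∈ IsLocalRing.maximalIdeal (MvPowerSeries (Fin N) (PowerSeries k)) := by
    intro c hc
    rw [IsLocalRing.mem_maximalIdeal, mem_nonunits_iff]
    intro hu
    have h2 := hu.map (sp k)
    rw [hc] at h2
    exact not_isUnit_zero h2
  have : Module.Finite (MvPowerSeries (Fin N) (PowerSeries k)) (AdjoinRoot P) := hP.finite_adjoinRoot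
  have hnak : (⊤ : Submodule (MvPowerSeries (Fin N) (PowerSeries k)) (AdjoinRoot P)) ≤
      (I.map (AdjoinRoot.mk P)).restrictScalars (MvPowerSeries (Fin N) (PowerSeries k)) := by
    refine Submodule.le_of_le_smul_of_le_jacobson_bot
      (I := IsLocalRing.maximalIdeal (MvPowerSeries (Fin N) (PowerSeries k))) Module.Finite.fg_top
      (IsLocalRing.maximalIdeal_le_jacobson _) ?_
    intro b _
    obtain ⟨f, rfl⟩ := AdjoinRoot.mk_surjective b
    have h3 : AdjoinRoot.mk P f = AdjoinRoot.mk P (f * x) + AdjoinRoot.mk P (f * (1 - x)) := by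
      rw [← map_add]
      congr 1
      ring
    rw [h3]
    refine Submodule.add_mem_sup ?_ ?_
    · exact Ideal.mem_map_of_mem _ (Ideal.mul_mem_left _ _ hxI)
    · have h4 : ∀ i, (f * (1 - x)).coeff i ∈
          IsLocalRing.maximalIdeal (MvPowerSeries (Fin N) (PowerSeries k)) := by
        intro i
        rw [Polynomial.coeff_mul]
        exact Ideal.sum_mem _ fun c _ => Ideal.mul_mem_left _ _ (hmax _ (hx2 _))
      have h5 : AdjoinRoot.mk P (f * (1 - x)) =
          ∑ i ∈ Finset.range ((f * (1 - x)).natDegree + 1), (f * (1 - x)).coeff i • AdjoinRoot.root P ^ i := by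
        conv_lhs => rw [(f * (1 - x)).as_sum_range_C_mul_X_pow]
        rw [map_sum]
        refine Finset.sum_congr rfl fun i _ => ?_
        rw [map_mul, map_pow, AdjoinRoot.mk_X, AdjoinRoot.mk_C, Algebra.smul_def, AdjoinRoot.algebraMap_eq]
      rw [h5]
      exact Submodule.sum_mem _ fun i _ => Submodule.smul_mem_smul (h4 i) Submodule.mem_top
  have h6 : (1 : AdjoinRoot P) ∈ I.map (AdjoinRoot.mk P) := hnak (Submodule.mem_top : (1 : AdjoinRoot P) ∈ _)
  obtain ⟨y, hy, hy1⟩ := (Ideal.mem_map_iff_of_surjective _ AdjoinRoot.mk_surjective).1 h6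
  rw [Ideal.eq_top_iff_one]
  have h7 : P ∣ 1 - y := by
    rw [← AdjoinRoot.mk_eq_mk, map_one, hy1]
  have h8 : (1 : (MvPowerSeries (Fin N) (PowerSeries k))[X]) = (1 - y) + y := by ring
  rw [h8]
  exact I.add_mem (Ideal.mem_of_dvd I h7 (Ideal.subset_span (Or.inl (Or.inl (Or.inl rfl))))) hy

end Pool.Agent.LibMX10
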