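import Pool.Agent.LibMX10.Defs
import Pool.Agent.LibMF6.A0
import Pool.Agent.LibMF6.A1

set_option autoImplicit false

/-! ROW X7 (MEDIUM/LONG, Defs, A0, A1). Reduction modulo s of the module VV P and of its submodules. O = MvPowerSeries (Fin N) (PowerSeries k), O₀ = MvPowerSeries (Fin N) k, P₀ = P.map (sp k), Q₀ = Q.map (sp k), s = sO k N = C X.
 πB : AdjoinRoot P →+* AdjoinRoot P₀ (AdjoinRoot.map (sp k) P P₀ dvd / lift), πB (mk H) = mk (H.map sp), πB (a • b) = sp a • πB b. Surjective. Kernel = s B: b = mk H, H = representative of degree < m (H %ₘ P); mk (H.map sp) = 0 with degree < natDegree P₀ = m gives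
   H.map sp = 0, all coefficients are multiples of C X (coefficientwise PowerSeries.X_dvd_iff; see exists_of_sp_eq_zero in LibMC10/R9.lean for the proof), H = C (C X) * H'.
 tau P₀ (πB b) = sp (tau P b) (tau_mk of A1 and Polynomial.map_modByMonic; natDegree of the monic P is unchanged by map: Polynomial.Monic.natDegree_map), πB (b0 P) = b0 P₀, πB (mk (dC d P)) = mk (dC d₀ P₀) (dC_map of A0), the same with derivative.
 π v = fun i => πB (v i). π (WM) = WM₀: generators go to generators (b • K1 ↦ πB b • K1 ..; e0 b with tau b = 0 ↦ e0 (πB b)), and every generator of WM₀ is the image of a generator of WM: for e0 b₀ with tau b₀ = 0: lift b₀ to b, tau b = multiple of s, replace b by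
   b - tau b • b0 (tau_b0; tau(b0) = 1, needs 0 < natDegree P). Therefore π v ∈ WM₀ ↔ v ∈ WM ⊔ sTop (← clear; → π v = π w, w ∈ WM, v - w ∈ ker π = sTop). Same for WN. (Spans over O and O₀: π is sp-semilinear and sp is surjective; Submodule.span_induction twice.) -/

namespace Pool.Agent.LibMX10

open Polynomial Pool.Agent.LibMF6

private noncomputable def X7_B {O O₀ : Type*} [CommRing O] [CommRing O₀] (φ : O →+* O₀) (P : O[X]) :
    AdjoinRoot P →+* AdjoinRoot (P.map φ) :=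
  AdjoinRoot.lift ((AdjoinRoot.of (P.map φ)).comp φ) (AdjoinRoot.root (P.map φ)) (by
    rw [← Polynomial.eval₂_map]
    exact AdjoinRoot.eval₂_root _)

private theorem X7_B_mk {O O₀ : Type*} [CommRing O] [CommRing O₀] (φ : O →+* O₀) (P H : O[X]) :
    X7_B φ P (AdjoinRoot.mk P H) = AdjoinRoot.mk (P.map φ) (H.map φ) := by
  rw [X7_B, AdjoinRoot.lift_mk, ← Polynomial.eval₂_map, ← AdjoinRoot.aeval_eq, Polynomial.aeval_def]
  rfl

private theorem X7_B_smul {O O₀ : Type*} [CommRing O] [CommRing O₀] (φ : O →+* O₀) (P : O[X]) (a : O)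
    (b : AdjoinRoot P) : X7_B φ P (a • b) = φ a • X7_B φ P b := by
  obtain ⟨H, rfl⟩ := AdjoinRoot.mk_surjective b
  rw [AdjoinRoot.smul_mk, X7_B_mk, X7_B_mk, AdjoinRoot.smul_mk]
  congr 1
  rw [Polynomial.smul_eq_C_mul, Polynomial.smul_eq_C_mul, Polynomial.map_mul, Polynomial.map_C]

private theorem X7_B_surj {O O₀ : Type*} [CommRing O] [CommRing O₀] (φ : O →+* O₀) (hφ : Function.Surjective φ)
    (P : O[X]) (b : AdjoinRoot (P.map φ)) : ∃ c : AdjoinRoot P, X7_B φ P c = b := by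
  obtain ⟨H, rfl⟩ := AdjoinRoot.mk_surjective b
  obtain ⟨H', rfl⟩ := Polynomial.map_surjective φ hφ H
  exact ⟨AdjoinRoot.mk P H', X7_B_mk φ P H'⟩

private theorem X7_B_ker {O O₀ : Type*} [CommRing O] [CommRing O₀] [Nontrivial O₀] (φ : O →+* O₀) (s : O)
    (hs : ∀ a, φ a = 0 ↔ s ∣ a) (P : O[X]) (hP : P.Monic) (b : AdjoinRoot P) :
    X7_B φ P b = 0 ↔ ∃ b', b = s • b' := by
  have hnt : Nontrivial O := φ.domain_nontrivial
  constructor
  · intro h
    obtain ⟨H, rfl⟩ := AdjoinRoot.mk_surjective b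
    have h1 : AdjoinRoot.mk P H = AdjoinRoot.mk P (H %ₘ P) := by
      rw [AdjoinRoot.mk_eq_mk, modByMonic_eq_sub_mul_div, sub_sub_cancel]
      exact dvd_mul_right _ _
    rw [h1, X7_B_mk, AdjoinRoot.mk_eq_zero] at h
    have h2 : (H %ₘ P).map φ = 0 := by
      by_contra hne
      refine (hP.map φ).not_dvd_of_degree_lt hne ?_ h
      rw [hP.degree_map φ]
      exact lt_of_le_of_lt Polynomial.degree_map_le (degree_modByMonic_lt H hP)
    have h3 : C s ∣ H %ₘ P := by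
      rw [Polynomial.C_dvd_iff_dvd_coeff]
      intro i
      rw [← hs, ← Polynomial.coeff_map, h2, Polynomial.coeff_zero]
    obtain ⟨G, hG⟩ := h3
    refine ⟨AdjoinRoot.mk P G, ?_⟩
    rw [h1, hG, AdjoinRoot.smul_mk, Polynomial.smul_eq_C_mul]
  · rintro ⟨b', rfl⟩
    rw [X7_B_smul, (hs s).2 (dvd_refl s), zero_smul]

private theorem X7_B_tau {O O₀ : Type*} [CommRing O] [CommRing O₀] [Nontrivial O₀] (φ : O →+* O₀)
    (P : O[X]) (hP : P.Monic) (b : AdjoinRoot P) :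
    tau (P.map φ) (hP.map φ) (X7_B φ P b) = φ (tau P hP b) := by
  obtain ⟨H, rfl⟩ := AdjoinRoot.mk_surjective b
  rw [X7_B_mk, tau_mk, tau_mk, ← Polynomial.map_modByMonic φ hP, Polynomial.coeff_map, hP.natDegree_map φ]

private theorem X7_B_b0 {O O₀ : Type*} [CommRing O] [CommRing O₀] [Nontrivial O₀] (φ : O →+* O₀)
    (P : O[X]) (hP : P.Monic) : X7_B φ P (b0 P) = b0 (P.map φ) := by
  rw [b0, b0, map_pow, hP.natDegree_map φ]
  congr 1
  rw [← AdjoinRoot.mk_X, X7_B_mk, Polynomial.map_X, AdjoinRoot.mk_X]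

private noncomputable def X7_pi {O O₀ : Type*} [CommRing O] [CommRing O₀] (φ : O →+* O₀) (P : O[X]) :
    VV P →+ VV (P.map φ) where
  toFun v := fun i => X7_B φ P (v i)
  map_zero' := by
    funext i
    rw [Pi.zero_apply, map_zero, Pi.zero_apply]
  map_add' v w := by
    funext i
    rw [Pi.add_apply, map_add, Pi.add_apply]

private theorem X7_pi_apply {O O₀ : Type*} [CommRing O] [CommRing O₀] (φ : O →+* O₀) (P : O[X]) (v : VV P)
    (i : Fin 3) : X7_pi φ P v i = X7_B φ P (v i) := rfl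

private theorem X7_pi_vec {O O₀ : Type*} [CommRing O] [CommRing O₀] (φ : O →+* O₀) (P : O[X])
    (a b c : AdjoinRoot P) : X7_pi φ P ![a, b, c] = ![X7_B φ P a, X7_B φ P b, X7_B φ P c] := by
  funext i
  rw [X7_pi_apply]
  fin_cases i <;> rfl

private theorem X7_pi_smul {O O₀ : Type*} [CommRing O] [CommRing O₀] (φ : O →+* O₀) (P : O[X]) (a : O)
    (v : VV P) : X7_pi φ P (a • v) = φ a • X7_pi φ P v := by
  funext i
  rw [X7_pi_apply, Pi.smul_apply, X7_B_smul, Pi.smul_apply, X7_pi_apply]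

private theorem X7_pi_smulB {O O₀ : Type*} [CommRing O] [CommRing O₀] (φ : O →+* O₀) (P : O[X])
    (b : AdjoinRoot P) (v : VV P) : X7_pi φ P (b • v) = X7_B φ P b • X7_pi φ P v := by
  funext i
  rw [X7_pi_apply, Pi.smul_apply, Pi.smul_apply, X7_pi_apply, smul_eq_mul, smul_eq_mul, map_mul]

private theorem X7_K1 {O O₀ : Type*} [CommRing O] [CommRing O₀] (φ : O →+* O₀) (P Q : O[X]) :
    X7_pi φ P (K1 P Q) = K1 (P.map φ) (Q.map φ) := by
  rw [K1, X7_pi_vec, map_neg, X7_B_mk, X7_B_mk, map_zero, K1, Polynomial.derivative_map]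

private theorem X7_K2 {O O₀ : Type*} [CommRing O] [CommRing O₀] (φ : O →+* O₀) (P Q : O[X]) :
    X7_pi φ P (K2 P Q) = K2 (P.map φ) (Q.map φ) := by
  rw [K2, X7_pi_vec, map_neg, X7_B_mk, X7_B_mk, map_zero, K2, Polynomial.derivative_map]

private theorem X7_K3 {O O₀ : Type*} [CommRing O] [CommRing O₀] (φ : O →+* O₀) (P Q : O[X]) :
    X7_pi φ P (K3 P Q) = K3 (P.map φ) (Q.map φ) := by
  rw [K3, X7_pi_vec, map_neg, X7_B_mk, X7_B_mk, map_zero, K3, Polynomial.derivative_map,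
    Polynomial.derivative_map]

private theorem X7_e0 {O O₀ : Type*} [CommRing O] [CommRing O₀] (φ : O →+* O₀) (P : O[X])
    (b : AdjoinRoot P) : X7_pi φ P (e0 P b) = e0 (P.map φ) (X7_B φ P b) := by
  rw [e0, X7_pi_vec, map_zero, e0]

/-- `A` is mapped onto `A₀` -/
private def X7_Rel {O O₀ V V₀ : Type*} [CommRing O] [CommRing O₀] [AddCommGroup V] [AddCommGroup V₀] [Module O V]
    [Module O₀ V₀] (π : V →+ V₀) (A : Submodule O V) (A₀ : Submodule O₀ V₀) : Prop :=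
  (∀ v ∈ A, π v ∈ A₀) ∧ ∀ v₀ ∈ A₀, ∃ v ∈ A, π v = v₀

private theorem X7_rel_span {O O₀ V V₀ : Type*} [CommRing O] [CommRing O₀] [AddCommGroup V] [AddCommGroup V₀]
    [Module O V] [Module O₀ V₀] (φ : O →+* O₀) (hφ : Function.Surjective φ) (π : V →+ V₀)
    (hπ : ∀ (a : O) (v : V), π (a • v) = φ a • π v) (S : Set V) (S₀ : Set V₀) (h1 : ∀ v ∈ S, π v ∈ S₀)
    (h2 : ∀ v₀ ∈ S₀, ∃ v ∈ S, π v = v₀) : X7_Rel π (Submodule.span O S) (Submodule.span O₀ S₀) := by
  constructor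
  · intro v hv
    induction hv using Submodule.span_induction with
    | mem x hx => exact Submodule.subset_span (h1 x hx)
    | zero => rw [map_zero]; exact Submodule.zero_mem _
    | add x y _ _ hx hy => rw [map_add]; exact Submodule.add_mem _ hx hy
    | smul a x _ hx => rw [hπ]; exact Submodule.smul_mem _ _ hx
  · intro v₀ hv
    induction hv using Submodule.span_induction with
    | mem x hx =>
      obtain ⟨v, hv, h⟩ := h2 x hx
      exact ⟨v, Submodule.subset_span hv, h⟩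
    | zero => exact ⟨0, Submodule.zero_mem _, map_zero π⟩
    | add x y _ _ hx hy =>
      obtain ⟨v, hv, rfl⟩ := hx
      obtain ⟨w, hw, rfl⟩ := hy
      exact ⟨v + w, Submodule.add_mem _ hv hw, map_add π v w⟩
    | smul a x _ hx =>
      obtain ⟨v, hv, rfl⟩ := hx
      obtain ⟨a', rfl⟩ := hφ a
      exact ⟨a' • v, Submodule.smul_mem _ _ hv, hπ a' v⟩

private theorem X7_rel_sup {O O₀ V V₀ : Type*} [CommRing O] [CommRing O₀] [AddCommGroup V] [AddCommGroup V₀]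
    [Module O V] [Module O₀ V₀] (π : V →+ V₀) {A B : Submodule O V} {A₀ B₀ : Submodule O₀ V₀}
    (hA : X7_Rel π A A₀) (hB : X7_Rel π B B₀) : X7_Rel π (A ⊔ B) (A₀ ⊔ B₀) := by
  constructor
  · intro v hv
    obtain ⟨a, ha, b, hb, rfl⟩ := Submodule.mem_sup.1 hv
    rw [map_add]
    exact Submodule.add_mem_sup (hA.1 a ha) (hB.1 b hb)
  · intro v hv
    obtain ⟨a, ha, b, hb, rfl⟩ := Submodule.mem_sup.1 hv
    obtain ⟨a', ha', rfl⟩ := hA.2 a ha
    obtain ⟨b', hb', rfl⟩ := hB.2 b hb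
    exact ⟨a' + b', Submodule.add_mem_sup ha' hb', map_add π a' b'⟩

private theorem X7_rel_iff {O O₀ V V₀ : Type*} [CommRing O] [CommRing O₀] [AddCommGroup V] [AddCommGroup V₀]
    [Module O V] [Module O₀ V₀] (π : V →+ V₀) {A K : Submodule O V} {A₀ : Submodule O₀ V₀}
    (hA : X7_Rel π A A₀) (hK : ∀ v, π v = 0 ↔ v ∈ K) (v : V) : π v ∈ A₀ ↔ v ∈ A ⊔ K := by
  constructor
  · intro h
    obtain ⟨w, hw, hwv⟩ := hA.2 _ h
    have h1 : v = w + (v - w) := by abel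
    rw [h1]
    refine Submodule.add_mem_sup hw ?_
    rw [← hK, map_sub, hwv, sub_self]
  · intro h
    obtain ⟨a, ha, b, hb, rfl⟩ := Submodule.mem_sup.1 h
    rw [map_add, (hK b).2 hb, add_zero]
    exact hA.1 a ha

private theorem X7_rel_W0 {O O₀ : Type*} [CommRing O] [CommRing O₀] [Nontrivial O₀] (φ : O →+* O₀)
    (hφ : Function.Surjective φ) (s : O) (hs : ∀ a, φ a = 0 ↔ s ∣ a)
    (P Q : O[X]) (hP : P.Monic) (hm : 0 < P.natDegree) :
    X7_Rel (X7_pi φ P) (W0 P Q hP) (W0 (P.map φ) (Q.map φ) (hP.map φ)) := by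
  refine X7_rel_span φ hφ _ (X7_pi_smul φ P) _ _ ?_ ?_
  · rintro v (⟨b, rfl⟩ | ⟨b, rfl⟩ | ⟨b, rfl⟩ | ⟨b, hb, rfl⟩)
    · exact Or.inl ⟨X7_B φ P b, by rw [X7_pi_smulB, X7_K1]⟩
    · exact Or.inr (Or.inl ⟨X7_B φ P b, by rw [X7_pi_smulB, X7_K2]⟩)
    · exact Or.inr (Or.inr (Or.inl ⟨X7_B φ P b, by rw [X7_pi_smulB, X7_K3]⟩))
    · exact Or.inr (Or.inr (Or.inr ⟨X7_B φ P b, by rw [X7_B_tau φ P hP, hb, map_zero], X7_e0 φ P b⟩))
  · rintro v (⟨b, rfl⟩ | ⟨b, rfl⟩ | ⟨b, rfl⟩ | ⟨b, hb, rfl⟩)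
    · obtain ⟨c, rfl⟩ := X7_B_surj φ hφ P b
      exact ⟨c • K1 P Q, Or.inl ⟨c, rfl⟩, by rw [X7_pi_smulB, X7_K1]⟩
    · obtain ⟨c, rfl⟩ := X7_B_surj φ hφ P b
      exact ⟨c • K2 P Q, Or.inr (Or.inl ⟨c, rfl⟩), by rw [X7_pi_smulB, X7_K2]⟩
    · obtain ⟨c, rfl⟩ := X7_B_surj φ hφ P b
      exact ⟨c • K3 P Q, Or.inr (Or.inr (Or.inl ⟨c, rfl⟩)), by rw [X7_pi_smulB, X7_K3]⟩
    · obtain ⟨c, rfl⟩ := X7_B_surj φ hφ P b
      rw [X7_B_tau φ P hP] at hb
      refine ⟨e0 P (c - tau P hP c • b0 P), Or.inr (Or.inr (Or.inr ⟨_, ?_, rfl⟩)), ?_⟩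
      · rw [map_sub, map_smul, tau_b0 P hP hm, smul_eq_mul, mul_one, sub_self]
      · rw [X7_e0, map_sub, X7_B_smul, hb, zero_smul, sub_zero]

private theorem X7_rel_wv {R R₀ O O₀ : Type*} [CommRing R] [CommRing R₀] [CommRing O] [CommRing O₀] [Algebra R O]
    [Algebra R₀ O₀] [Nontrivial O₀] (φ : O →+* O₀)
    (hφ : Function.Surjective φ) (P Q : O[X]) (hP : P.Monic) {N : ℕ} (D : Fin N → Derivation R O O)
    (D₀ : Fin N → Derivation R₀ O₀ O₀) (hD : ∀ j c, φ (D j c) = D₀ j (φ c)) (l : Fin N → O) :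
    X7_Rel (X7_pi φ P) (Submodule.span O (Set.range fun j => wv P Q (D j) (l j)))
      (Submodule.span O₀ (Set.range fun j => wv (P.map φ) (Q.map φ) (D₀ j) (φ (l j)))) := by
  have h : ∀ j, X7_pi φ P (wv P Q (D j) (l j)) = wv (P.map φ) (Q.map φ) (D₀ j) (φ (l j)) := by
    intro j
    rw [wv, X7_pi_vec, X7_B_smul, X7_B_b0 φ P hP, map_neg, X7_B_mk, X7_B_mk, wv,
      dC_map (D j) (D₀ j) φ (hD j), dC_map (D j) (D₀ j) φ (hD j)]
  refine X7_rel_span φ hφ _ (X7_pi_smul φ P) _ _ ?_ ?_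
  · rintro v ⟨j, rfl⟩
    exact ⟨j, (h j).symm⟩
  · rintro v ⟨j, rfl⟩
    exact ⟨_, ⟨j, rfl⟩, h j⟩

private theorem X7_rel_e0 {O O₀ : Type*} [CommRing O] [CommRing O₀] (φ : O →+* O₀)
    (hφ : Function.Surjective φ) (P : O[X]) :
    X7_Rel (X7_pi φ P) (Submodule.span O (Set.range fun b : AdjoinRoot P => e0 P b))
      (Submodule.span O₀ (Set.range fun b : AdjoinRoot (P.map φ) => e0 (P.map φ) b)) := by
  refine X7_rel_span φ hφ _ (X7_pi_smul φ P) _ _ ?_ ?_
  · rintro v ⟨b, rfl⟩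
    exact ⟨X7_B φ P b, (X7_e0 φ P b).symm⟩
  · rintro v ⟨b, rfl⟩
    obtain ⟨c, rfl⟩ := X7_B_surj φ hφ P b
    exact ⟨_, ⟨c, rfl⟩, X7_e0 φ P c⟩

private theorem X7_sp_surj {k : Type*} [Field k] {σ : Type*} : Function.Surjective (sp k (σ := σ)) := by
  intro f
  refine ⟨MvPowerSeries.map (PowerSeries.C (R := k)) f, ?_⟩
  ext n
  rw [sp, MvPowerSeries.coeff_map, MvPowerSeries.coeff_map]
  simp

private theorem X7_sp_zero {k : Type*} [Field k] {N : ℕ} (a : MvPowerSeries (Fin N) (PowerSeries k)) :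
    sp k a = 0 ↔ sO k N ∣ a := by
  constructor
  · intro h
    have h1 : ∀ n, ∃ c : PowerSeries k, MvPowerSeries.coeff n a = PowerSeries.X * c := by
      intro n
      have h2 : MvPowerSeries.coeff n (sp k a) = 0 := by rw [h, map_zero]
      rw [sp, MvPowerSeries.coeff_map] at h2
      exact PowerSeries.X_dvd_iff.2 h2
    choose c hc using h1
    refine ⟨(fun n => c n : MvPowerSeries (Fin N) (PowerSeries k)), ?_⟩
    ext1 n
    rw [sO, MvPowerSeries.coeff_C_mul, hc n]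
    rfl
  · rintro ⟨b, rfl⟩
    rw [map_mul, sp, sO, MvPowerSeries.map_C]
    simp

private theorem X7_sp_pderiv {k : Type*} [Field k] {N : ℕ} (j : Fin N)
    (c : MvPowerSeries (Fin N) (PowerSeries k)) :
    sp k (MvPowerSeries.pderiv (PowerSeries k) j c) = MvPowerSeries.pderiv k j (sp k c) := by
  ext n
  rw [sp, MvPowerSeries.coeff_map, MvPowerSeries.coeff_pderiv, MvPowerSeries.coeff_pderiv,
    MvPowerSeries.coeff_map]
  simp

theorem exists_pi {k : Type*} [Field k] {N : ℕ} (P Q : (MvPowerSeries (Fin N) (PowerSeries k))[X]) (hP : P.Monic)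
    (hm : 0 < P.natDegree) (l : Fin N → MvPowerSeries (Fin N) (PowerSeries k)) :
    ∃ π : VV P →+ VV (P.map (sp k)), Function.Surjective π ∧
      (∀ (a : MvPowerSeries (Fin N) (PowerSeries k)) (v : VV P), π (a • v) = sp k a • π v) ∧
      (∀ v, π v = 0 ↔ v ∈ sTop P) ∧
      (∀ v, π v ∈ WM (P.map (sp k)) (Q.map (sp k)) (hP.map _) (fun j z => MvPowerSeries.pderiv k j z) (fun j => sp k (l j)) ↔
        v ∈ WM P Q hP (fun j z => MvPowerSeries.pderiv (PowerSeries k) j z) l ⊔ sTop P) ∧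
      (∀ v, π v ∈ WN (P.map (sp k)) (Q.map (sp k)) (hP.map _) (fun j z => MvPowerSeries.pderiv k j z) (fun j => sp k (l j)) ↔
        v ∈ WN P Q hP (fun j z => MvPowerSeries.pderiv (PowerSeries k) j z) l ⊔ sTop P) ∧
      π (e0 P (b0 P)) = e0 (P.map (sp k)) (b0 (P.map (sp k))) := by
  have hker : ∀ v, X7_pi (sp k) P v = 0 ↔ v ∈ sTop P := by
    intro v
    constructor
    · intro h
      have h1 : ∀ i, ∃ b', v i = sO k N • b' := by
        intro i
        rw [← X7_B_ker (sp k) (sO k N) X7_sp_zero P hP, ← X7_pi_apply, h, Pi.zero_apply]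
      choose w hw using h1
      refine ⟨w, ?_⟩
      rw [LinearMap.lsmul_apply]
      funext i
      rw [Pi.smul_apply, hw i]
    · rintro ⟨w, rfl⟩
      rw [LinearMap.lsmul_apply, X7_pi_smul, (X7_sp_zero (sO k N)).2 (dvd_refl _), zero_smul]
  have hWM : X7_Rel (X7_pi (sp k) P) (WM P Q hP (fun j z => MvPowerSeries.pderiv (PowerSeries k) j z) l)
      (WM (P.map (sp k)) (Q.map (sp k)) (hP.map _) (fun j z => MvPowerSeries.pderiv k j z) (fun j => sp k (l j))) := by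
    refine X7_rel_sup _ (X7_rel_W0 (sp k) X7_sp_surj (sO k N) X7_sp_zero P Q hP hm) ?_
    exact X7_rel_wv (sp k) X7_sp_surj P Q hP (fun j => MvPowerSeries.pderiv (PowerSeries k) j)
      (fun j => MvPowerSeries.pderiv k j) X7_sp_pderiv l
  refine ⟨X7_pi (sp k) P, ?_, X7_pi_smul (sp k) P, hker, X7_rel_iff _ hWM hker,
    X7_rel_iff _ (X7_rel_sup _ hWM (X7_rel_e0 (sp k) X7_sp_surj P)) hker, ?_⟩
  · intro v
    choose w hw using fun i => X7_B_surj (sp k) X7_sp_surj P (v i)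
    exact ⟨w, funext hw⟩
  · rw [X7_e0, X7_B_b0 (sp k) P hP]

end Pool.Agent.LibMX10
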