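import Pool.Agent.LibMX10.X2
import Pool.Agent.LibMF6.A2
import Pool.Agent.LibMF6.A3

set_option autoImplicit false

/-! ROW X8 (MEDIUM, X2, A2, A3). The weighted homogeneous case over O = k[[y]]: e0 b0 ∈ WM.
 order_unit (MEDIUM, Mathlib): E(G) := ∑ w_j y_j ∂_j G = c G, G ≠ 0, constantCoeff G = 0, all w_j > 0 ⇒ constantCoeff c ≠ 0. Coefficients: coeff e (E G) = (∑ w_j e_j) coeff e G =: W(e) coeff e G. Choose e with coeff e G ≠ 0 and W(e) minimal; W(e) > 0 since
   e ≠ 0. coeff e (c G) = ∑ over e' + e'' = e of coeff e' c * coeff e'' G, and coeff e'' G = 0 unless e' = 0 (W(e'') < W(e) if e' ≠ 0): W(e) coeff e G = constantCoeff c * coeff e G, so constantCoeff c = W(e) ≠ 0 (char 0).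
 wh: r, hr, hD from exists_adj. (w_j y_j) ∈ tfX gives ζ (mem_tfX_iff); lift ζ to z ∈ B = AdjoinRoot P (or to a polynomial): in O[X] the polynomials ∑ w_j y_j dj P + Z P' and ∑ w_j y_j dj Q + Z Q' lie in (P, Q) (Ideal.Quotient.eq_zero_iff_mem, mem_span_pair), so in B:
   ∑ w_j y_j • mk(dj P) + z P' = q β, ∑ w_j y_j • mk(dj Q) + z Q' = q α. Hence ∑ w_j y_j • wv j = λ b0 e_0 + (q α - z Q') e_1 - (q β - z P') e_2, λ = ∑ w_j y_j l_j, and modulo W0: q α e_1 ≡ α P' e_0 (qe1_mem), q β e_2 ≡ β Q' e_0 (qe2_mem), z (P' e_2 - Q' e_1) = z K3,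
   e0 b ≡ τ(b) e0 b0 (e0_sub_mem). So (λ + c') e0 b0 ∈ WM with c' = τ(α P' - β Q'). Apply phi (phi_W0, phi_wv with dG = pderiv j G, phi_e0, tau_b0): ∑ w_j y_j (G l_j + ∂_j G) = (λ + c') G, so E(G) = c' G; order_unit: constantCoeff c' ≠ 0;
   constantCoeff λ = 0, so λ + c' is a unit and e0 b0 ∈ WM. -/

namespace Pool.Agent.LibMX10

open Polynomial Pool.Agent.LibMF6

private theorem X8_coeff {k : Type*} [Field k] {N : ℕ} (G : MvPowerSeries (Fin N) k)
    (j : Fin N) (e : Fin N →₀ ℕ) :
    MvPowerSeries.coeff e (MvPowerSeries.X j * MvPowerSeries.pderiv k j G) =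
      (e j : k) * MvPowerSeries.coeff e G := by
  classical
  rw [MvPowerSeries.X, MvPowerSeries.coeff_monomial_mul]
  by_cases h : Finsupp.single j 1 ≤ e
  · rw [if_pos h, MvPowerSeries.coeff_pderiv, one_mul, tsub_add_cancel_of_le h]
    have h1 : 1 ≤ e j := by
      have := h j
      rwa [Finsupp.single_eq_same] at this
    rw [Finsupp.tsub_apply, Finsupp.single_eq_same, Nat.cast_sub h1]
    push_cast
    ring
  · rw [if_neg h]
    have h1 : e j = 0 := by
      by_contra hne
      apply h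
      rw [Finsupp.single_le_iff]
      omega
    rw [h1, Nat.cast_zero, zero_mul]

theorem order_unit {k : Type*} [Field k] [CharZero k] {N : ℕ} (w : Fin N → ℕ) (hw : ∀ j, 0 < w j)
    (G c : MvPowerSeries (Fin N) k) (hG : G ≠ 0) (hG0 : MvPowerSeries.constantCoeff G = 0)
    (h : ∑ j, (w j : MvPowerSeries (Fin N) k) * MvPowerSeries.X j * MvPowerSeries.pderiv k j G = c * G) :
    MvPowerSeries.constantCoeff c ≠ 0 := by
  classical
  -- the weight
  set W : (Fin N →₀ ℕ) → ℕ := fun e => ∑ j, w j * e j with hW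
  have hWadd : ∀ e e', W (e + e') = W e + W e' := by
    intro e e'
    rw [hW]
    simp only [Finsupp.add_apply, mul_add, Finset.sum_add_distrib]
  have hWpos : ∀ e, e ≠ 0 → 0 < W e := by
    intro e he
    obtain ⟨j, hj⟩ := DFunLike.ne_iff.1 he
    have h1 : 0 < e j := Nat.pos_of_ne_zero hj
    exact lt_of_lt_of_le (Nat.mul_pos (hw j) h1)
      (Finset.single_le_sum (f := fun j => w j * e j) (fun i _ => Nat.zero_le _) (Finset.mem_univ j))
  -- coefficients of the Euler field
  have hE : ∀ e, MvPowerSeries.coeff e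
      (∑ j, (w j : MvPowerSeries (Fin N) k) * MvPowerSeries.X j * MvPowerSeries.pderiv k j G) =
      (W e : k) * MvPowerSeries.coeff e G := by
    intro e
    rw [map_sum, hW]
    push_cast
    rw [Finset.sum_mul]
    refine Finset.sum_congr rfl fun j _ => ?_
    rw [mul_assoc, ← nsmul_eq_mul, map_nsmul, X8_coeff, nsmul_eq_mul, mul_assoc]
  -- a monomial of minimal weight
  have hex : ∃ n, ∃ e, MvPowerSeries.coeff e G ≠ 0 ∧ W e = n := by
    by_contra hc
    push Not at hc
    apply hG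
    ext e
    by_contra hne
    exact hc (W e) e hne rfl
  obtain ⟨e, he, hen⟩ := Nat.find_spec hex
  have hmin : ∀ e', W e' < W e → MvPowerSeries.coeff e' G = 0 := by
    intro e' h1
    by_contra h2
    rw [hen] at h1
    exact Nat.find_min hex h1 ⟨e', h2, rfl⟩
  have he0 : e ≠ 0 := by
    intro h0
    apply he
    rw [h0]
    exact hG0
  have h1 := congrArg (MvPowerSeries.coeff e) h
  rw [hE, MvPowerSeries.coeff_mul, Finset.sum_eq_single ((0 : Fin N →₀ ℕ), e)] at h1
  · have h2 : MvPowerSeries.constantCoeff c = (W e : k) := by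
      have h3 := mul_right_cancel₀ he h1
      rw [h3]
      rfl
    rw [h2]
    exact Nat.cast_ne_zero.2 (hWpos e he0).ne'
  · rintro ⟨a, b⟩ hab hne
    rw [Finset.HasAntidiagonal.mem_antidiagonal] at hab
    have hab' : a + b = e := hab
    have ha : a ≠ 0 := by
      intro h0
      apply hne
      rw [h0, zero_add] at hab'
      rw [h0, hab']
    have h3 : W b < W e := by
      rw [← hab', hWadd]
      have := hWpos a ha
      omega
    show MvPowerSeries.coeff a c * MvPowerSeries.coeff b G = 0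
    rw [hmin b h3, mul_zero]
  · intro hn
    exact absurd (Finset.HasAntidiagonal.mem_antidiagonal.2 (zero_add e)) hn

private theorem X8_rel {k : Type*} [Field k] {N : ℕ} (P Q H' : (MvPowerSeries (Fin N) k)[X])
    (w : Fin N → ℕ) (dH : Fin N → (MvPowerSeries (Fin N) k)[X]) (Z : (MvPowerSeries (Fin N) k)[X])
    (h : (∑ j, ((w j : k) • yS k P Q j) * cl k P Q (dH j)) + cl k P Q Z * cl k P Q H' = 0) :
    ∃ β : AdjoinRoot P, (∑ j, ((w j : MvPowerSeries (Fin N) k) * MvPowerSeries.X j) •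
      AdjoinRoot.mk P (dH j)) + AdjoinRoot.mk P Z * AdjoinRoot.mk P H' = AdjoinRoot.mk P Q * β := by
  have h1 : cl k P Q ((∑ j, C ((w j : MvPowerSeries (Fin N) k) * MvPowerSeries.X j) * dH j) + Z * H')
      = 0 := by
    have h6 : ∀ j, Ideal.Quotient.mk (Ideal.span {P, Q})
        (C ((w j : MvPowerSeries (Fin N) k) * MvPowerSeries.X j) * dH j) =
        ((w j : k) • yS k P Q j) * cl k P Q (dH j) := by
      intro j
      have h5 : (w j : k) • yS k P Q j =
          Ideal.Quotient.mk (Ideal.span {P, Q}) ((w j : k) • (C (MvPowerSeries.X j))) := rfl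
      rw [map_mul, h5, smul_C, Algebra.smul_def, map_natCast]
    rw [← h]
    unfold cl
    rw [map_add, map_sum, map_mul, Finset.sum_congr rfl fun j _ => h6 j]
  have h2 := Ideal.Quotient.eq_zero_iff_mem.1 h1
  obtain ⟨a, b, hab⟩ := Ideal.mem_span_pair.1 h2
  refine ⟨AdjoinRoot.mk P b, ?_⟩
  have h3 := congrArg (AdjoinRoot.mk P) hab
  rw [map_add, map_mul, AdjoinRoot.mk_self, mul_zero, zero_add, map_add, map_sum, map_mul,
    map_mul] at h3
  rw [mul_comm (AdjoinRoot.mk P Q), h3]
  congr 1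
  refine Finset.sum_congr rfl fun j _ => ?_
  rw [map_mul, AdjoinRoot.mk_C, Algebra.smul_def, AdjoinRoot.algebraMap_eq]

theorem wh {k : Type*} [Field k] [CharZero k] {N : ℕ} (P Q : (MvPowerSeries (Fin N) k)[X]) (hP : P.Monic)
    (hm : 0 < P.natDegree) (l : Fin N → MvPowerSeries (Fin N) k) (hG : GG P Q ≠ 0)
    (hG0 : MvPowerSeries.constantCoeff (GG P Q) = 0) (w : Fin N → ℕ) (hw : ∀ j, 0 < w j)
    (h : (fun j => (w j : k) • yS k P Q j) ∈ tfX k P Q) :
    e0 P (b0 P) ∈ WM P Q hP (fun j z => MvPowerSeries.pderiv k j z) l := by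
  obtain ⟨r, hr, hD⟩ := exists_adj (R := k) P Q hP hm
  rw [mem_tfX_iff P Q hP] at h
  obtain ⟨ζ, e1, e2⟩ := h
  obtain ⟨Z, rfl⟩ := Ideal.Quotient.mk_surjective ζ
  obtain ⟨β, hβ⟩ := X8_rel P Q (derivative P) w (fun j => dj k j P) Z e1
  obtain ⟨α, hα⟩ := X8_rel P Q (derivative Q) w (fun j => dj k j Q) Z e2
  set t := AdjoinRoot.mk P Z with ht
  set lam : MvPowerSeries (Fin N) k :=
    ∑ j, ((w j : MvPowerSeries (Fin N) k) * MvPowerSeries.X j) * l j with hlam
  set c' : MvPowerSeries (Fin N) k := tau P hP (α * AdjoinRoot.mk P (derivative P) -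
    β * AdjoinRoot.mk P (derivative Q)) with hc'
  set S : VV P := ∑ j, ((w j : MvPowerSeries (Fin N) k) * MvPowerSeries.X j) •
    wv P Q (fun z => MvPowerSeries.pderiv k j z) (l j) with hS
  -- the part in `W0`
  obtain ⟨V, hV, hVe⟩ : ∃ V ∈ W0 P Q hP, (lam + c') • e0 P (b0 P) = S + V := by
    have m1 := qe1_mem P Q hP α
    have m2 := qe2_mem P Q hP β
    have m3 : t • K3 P Q ∈ W0 P Q hP :=
      Submodule.subset_span (Or.inr (Or.inr (Or.inl ⟨t, rfl⟩)))
    have m4 := e0_sub_mem P Q hP hm (α * AdjoinRoot.mk P (derivative P) -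
      β * AdjoinRoot.mk P (derivative Q))
    rw [← hc'] at m4
    refine ⟨_, Submodule.sub_mem _ (Submodule.sub_mem _ (Submodule.sub_mem _ m2 m1) m3) m4, ?_⟩
    have s0 : S 0 = lam • b0 P := by
      rw [hS, Finset.sum_apply, hlam, Finset.sum_smul]
      refine Finset.sum_congr rfl fun j _ => ?_
      show ((w j : MvPowerSeries (Fin N) k) * MvPowerSeries.X j) • (l j • b0 P) = _
      rw [smul_smul]
    have s1 : S 1 = AdjoinRoot.mk P Q * α - t * AdjoinRoot.mk P (derivative Q) := by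
      rw [← hα, add_sub_cancel_right, hS, Finset.sum_apply]
      rfl
    have s2 : S 2 = -(AdjoinRoot.mk P Q * β - t * AdjoinRoot.mk P (derivative P)) := by
      rw [← hβ, add_sub_cancel_right, hS, Finset.sum_apply, ← Finset.sum_neg_distrib]
      refine Finset.sum_congr rfl fun j _ => ?_
      show ((w j : MvPowerSeries (Fin N) k) * MvPowerSeries.X j) • -AdjoinRoot.mk P (dj k j P) = _
      rw [smul_neg]
    funext i
    fin_cases i
    · show (lam + c') • b0 P = S 0 + (((0 - β * AdjoinRoot.mk P (derivative Q)) -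
        (0 - α * AdjoinRoot.mk P (derivative P))) - t * 0 -
        ((α * AdjoinRoot.mk P (derivative P) - β * AdjoinRoot.mk P (derivative Q)) - c' • b0 P))
      rw [s0, add_smul]
      ring
    · show (lam + c') • (0 : AdjoinRoot P) = S 1 + (((0 - 0) - (AdjoinRoot.mk P Q * α - 0)) -
        t * (-AdjoinRoot.mk P (derivative Q)) - (0 - c' • (0 : AdjoinRoot P)))
      rw [s1, smul_zero, smul_zero]
      ring
    · show (lam + c') • (0 : AdjoinRoot P) = S 2 + (((AdjoinRoot.mk P Q * β - 0) - (0 - 0)) -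
        t * (AdjoinRoot.mk P (derivative P)) - (0 - c' • (0 : AdjoinRoot P)))
      rw [s2, smul_zero, smul_zero]
      ring
  -- apply `phi`
  have hphi := congrArg (phi P Q hP r) hVe
  rw [map_add, phi_W0 P Q hP r hr V hV, add_zero, map_smul, phi_e0, tau_b0 P hP hm, smul_eq_mul,
    mul_one, hS, map_sum] at hphi
  have hphi2 : ∑ j, (w j : MvPowerSeries (Fin N) k) * MvPowerSeries.X j *
      MvPowerSeries.pderiv k j (GG P Q) = c' * GG P Q := by
    have h3 : ∀ j, phi P Q hP r (((w j : MvPowerSeries (Fin N) k) * MvPowerSeries.X j) •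
        wv P Q (fun z => MvPowerSeries.pderiv k j z) (l j)) =
        ((w j : MvPowerSeries (Fin N) k) * MvPowerSeries.X j) * l j * GG P Q +
        (w j : MvPowerSeries (Fin N) k) * MvPowerSeries.X j *
          MvPowerSeries.pderiv k j (GG P Q) := by
      intro j
      rw [map_smul, phi_wv P Q hP hm r (fun z => MvPowerSeries.pderiv k j z) (l j)
        (MvPowerSeries.pderiv k j (GG P Q)) (hD (MvPowerSeries.pderiv k j)), smul_eq_mul]
      ring
    rw [Finset.sum_congr rfl fun j _ => h3 j, Finset.sum_add_distrib, ← Finset.sum_mul, ← hlam,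
      add_mul] at hphi
    exact (add_left_cancel hphi).symm
  have hc0 := order_unit w hw (GG P Q) c' hG hG0 hphi2
  have hu : IsUnit (lam + c') := by
    rw [MvPowerSeries.isUnit_iff_constantCoeff, isUnit_iff_ne_zero, map_add]
    have h4 : MvPowerSeries.constantCoeff lam = 0 := by
      rw [hlam, map_sum]
      refine Finset.sum_eq_zero fun j _ => ?_
      rw [map_mul, map_mul, MvPowerSeries.constantCoeff_X, mul_zero, zero_mul]
    rw [h4, zero_add]
    exact hc0
  have hmem : (lam + c') • e0 P (b0 P) ∈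
      WM P Q hP (fun j z => MvPowerSeries.pderiv k j z) l := by
    rw [hVe]
    refine Submodule.add_mem _ ?_ (Submodule.mem_sup_left hV)
    rw [hS]
    refine Submodule.sum_mem _ fun j _ => Submodule.smul_mem _ _ ?_
    exact Submodule.mem_sup_right (Submodule.subset_span ⟨j, rfl⟩)
  obtain ⟨u, hu⟩ := hu
  have h5 := Submodule.smul_mem _ ((u⁻¹ : (MvPowerSeries (Fin N) k)ˣ) : MvPowerSeries (Fin N) k) hmem
  rwa [← hu, smul_smul, Units.inv_mul, one_smul] at h5

end Pool.Agent.LibMX10
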