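import Pool.Agent.LibMC10.PQ2
import Pool.Agent.LibMX10.HC
import Pool.Agent.LibMX10.X3
import Pool.Agent.LibMX10.X4
import Pool.Agent.LibMX10.X5
import Pool.Agent.LibMX10.X6
import Pool.Agent.LibMX10.X7
import Pool.Agent.LibMX10.X8

set_option autoImplicit false

/-! Assembly of the multigerm theorem. -/

namespace Pool.Agent.LibMX10

open Polynomial Pool.Agent.LibMF6

theorem sp_GG {k : Type} [Field k] {N : ℕ} (P Q : (MvPowerSeries (Fin N) (PowerSeries k))[X]) (hP : P.Monic) :
    sp k (GG P Q) = GG (P.map (sp k)) (Q.map (sp k)) := by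
  let F := FractionRing (MvPowerSeries (Fin N) k)
  have hinj : Function.Injective (algebraMap (MvPowerSeries (Fin N) k) F) := IsFractionRing.injective _ _
  apply hinj
  let alg : Algebra (MvPowerSeries (Fin N) (PowerSeries k)) F :=
    ((algebraMap (MvPowerSeries (Fin N) k) F).comp (sp k)).toAlgebra
  have h1 : algebraMap (MvPowerSeries (Fin N) (PowerSeries k)) F (GG P Q) = GG (P.map
      (algebraMap (MvPowerSeries (Fin N) (PowerSeries k)) F)) (Q.map (algebraMap (MvPowerSeries (Fin N) (PowerSeries k)) F)) :=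
    norm_map P Q hP
  have h2 := norm_map (K := F) (P.map (sp k)) (Q.map (sp k)) (hP.map _)
  rw [h2, Polynomial.map_map, Polynomial.map_map]
  exact h1

/-- quotients of `V` and `V₀` -/
theorem equiv_of_pi {k V V₀ : Type*} [Field k] [AddCommGroup V] [Module k V] [AddCommGroup V₀] [Module k V₀]
    {A A₀ : Type*} [CommRing A] [Module A V] [CommRing A₀] [Module A₀ V₀] [Algebra k A] [IsScalarTower k A V]
    [Algebra k A₀] [IsScalarTower k A₀ V₀]
    (π : V →+ V₀) (hπ : Function.Surjective π)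
    (hk' : ∀ (c : k) (v : V), π (algebraMap k A c • v) = algebraMap k A₀ c • π v)
    (W : Submodule A V) (W₀ : Submodule A₀ V₀)
    (h : ∀ v, π v ∈ W₀ ↔ v ∈ W) : Nonempty ((V ⧸ W) ≃ₗ[k] (V₀ ⧸ W₀)) := by
  have hk : ∀ (c : k) (v : V), π (c • v) = c • π v := by
    intro c v
    rw [← algebraMap_smul A c v, hk', algebraMap_smul]
  let f : V →ₗ[k] (V₀ ⧸ W₀) :=
    { toFun := fun v => Submodule.Quotient.mk (π v)
      map_add' := fun v w => by rw [map_add, Submodule.Quotient.mk_add]
      map_smul' := fun c v => by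
        rw [hk, RingHom.id_apply]
        rfl }
  have hf : ∀ v, f v = Submodule.Quotient.mk (π v) := fun v => rfl
  have hsur : Function.Surjective f := by
    intro z
    obtain ⟨y, rfl⟩ := Submodule.Quotient.mk_surjective _ z
    obtain ⟨v, rfl⟩ := hπ y
    exact ⟨v, rfl⟩
  let g : (V ⧸ W) →ₗ[k] (V₀ ⧸ W₀) :=
    { toFun := Quotient.lift (s := W.quotientRel) f (fun a b hab => by
        have h1 := (Submodule.quotientRel_def W).mp hab
        rw [hf, hf, Submodule.Quotient.eq, ← map_sub, h]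
        exact h1)
      map_add' := by
        intro x y
        obtain ⟨a, rfl⟩ := Submodule.Quotient.mk_surjective _ x
        obtain ⟨b, rfl⟩ := Submodule.Quotient.mk_surjective _ y
        exact f.map_add a b
      map_smul' := by
        intro c x
        obtain ⟨a, rfl⟩ := Submodule.Quotient.mk_surjective _ x
        exact f.map_smul c a }
  refine ⟨LinearEquiv.ofBijective g ⟨?_, ?_⟩⟩
  · intro x y hxy
    obtain ⟨a, rfl⟩ := Submodule.Quotient.mk_surjective _ x
    obtain ⟨b, rfl⟩ := Submodule.Quotient.mk_surjective _ y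
    change (Submodule.Quotient.mk (π a) : V₀ ⧸ W₀) = Submodule.Quotient.mk (π b) at hxy
    rw [Submodule.Quotient.eq, ← map_sub, h] at hxy
    exact (Submodule.Quotient.eq _).mpr hxy
  · intro z
    obtain ⟨v, rfl⟩ := hsur z
    exact ⟨Submodule.Quotient.mk v, rfl⟩

theorem multi (k : Type) [Field k] [CharZero k] {N : ℕ} (hN : 2 ≤ N)
    (P Q : (MvPowerSeries (Fin N) (PowerSeries k))[X]) (hP : P.Monic) (hm : 0 < P.natDegree) (hQ : Q.degree < P.degree)
    (hsm : IsSm k (P.map (sp k)) (Q.map (sp k)))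
    (hG : GG (P.map (sp k)) (Q.map (sp k)) ≠ 0)
    (hG0 : MvPowerSeries.constantCoeff (GG (P.map (sp k)) (Q.map (sp k))) = 0)
    (hA : Module.Finite k (T1X k (P.map (sp k)) (Q.map (sp k))))
    (hS : ∃ e : ℕ, ∀ z : T1X (PowerSeries k) P Q, (PowerSeries.X : PowerSeries k) ^ e • z = 0)
    (ε : MvPowerSeries (Fin N) (PowerSeries k)) (hε : IsUnit ε) :
    Module.finrank k (T1X k (P.map (sp k)) (Q.map (sp k))) ≤ siersma k (ε * GG P Q) ∧
    ((∃ w : Fin N → ℕ, (∀ j, 0 < w j) ∧ (fun j => (w j : k) • yS k (P.map (sp k)) (Q.map (sp k)) j) ∈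
        tfX k (P.map (sp k)) (Q.map (sp k))) →
      Module.finrank k (T1X k (P.map (sp k)) (Q.map (sp k))) = siersma k (ε * GG P Q)) ∧
    Module.rank (PowerSeries k) (Localization.Away (Ideal.Quotient.mk (JJ k (ε * GG P Q)) (ε * GG P Q))) <
      Cardinal.aleph0 := by
  classical
  obtain ⟨ε', hε'⟩ := hε.exists_right_inv
  let l : Fin N → MvPowerSeries (Fin N) (PowerSeries k) := fun j => ε' * MvPowerSeries.pderiv (PowerSeries k) j ε
  have hl : ∀ j, ε * l j = MvPowerSeries.pderiv (PowerSeries k) j ε := by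
    intro j
    change ε * (ε' * _) = _
    rw [← mul_assoc, hε', one_mul]
  have hm0 : 0 < (P.map (sp k)).natDegree := by
    rw [hP.natDegree_map]
    exact hm
  obtain ⟨e1⟩ := T1X_equiv P Q hP (isSm2_of_isSm P Q (isSm_of_special P Q hP hsm))
  obtain ⟨e2⟩ := VV_equiv P Q hP l
  obtain ⟨f1⟩ := T1X_equiv (P.map (sp k)) (Q.map (sp k)) (hP.map _) (isSm2_of_isSm _ _ hsm)
  obtain ⟨f2⟩ := VV_equiv (P.map (sp k)) (Q.map (sp k)) (hP.map _) (fun j => sp k (l j))
  obtain ⟨π, hπ, hsmul, hker, hWM, hWN, hb⟩ := exists_pi P Q hP hm l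
  have hk : ∀ (c : k) (v : VV P), π (algebraMap k (MvPowerSeries (Fin N) (PowerSeries k)) c • v) =
      algebraMap k (MvPowerSeries (Fin N) k) c • π v := by
    intro c v
    rw [hsmul]
    congr 1
  obtain ⟨eN⟩ := equiv_of_pi π hπ hk (WN P Q hP (fun j z => MvPowerSeries.pderiv (PowerSeries k) j z) l ⊔ sTop P)
    (WN (P.map (sp k)) (Q.map (sp k)) (hP.map _) (fun j z => MvPowerSeries.pderiv k j z) (fun j => sp k (l j))) hWN
  have hfinN : Module.Finite k (VV P ⧸ (WN P Q hP (fun j z => MvPowerSeries.pderiv (PowerSeries k) j z) l ⊔ sTop P)) :=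
    Module.Finite.equiv ((f1.trans f2.symm).trans eN.symm)
  have hrN : Module.finrank k (T1X k (P.map (sp k)) (Q.map (sp k))) = Module.finrank k
      (VV P ⧸ (WN P Q hP (fun j z => MvPowerSeries.pderiv (PowerSeries k) j z) l ⊔ sTop P)) :=
    LinearEquiv.finrank_eq ((f1.trans f2.symm).trans eN.symm)
  obtain ⟨r, hr⟩ := hS
  have hS' : ∀ v : VV P, Pool.Agent.LibMF6.sO k N ^ r • v ∈
      WN P Q hP (fun j z => MvPowerSeries.pderiv (PowerSeries k) j z) l := by
    intro v
    rw [← Submodule.Quotient.mk_eq_zero, Submodule.Quotient.mk_smul]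
    have h1 := hr (e1.symm (e2 (Submodule.Quotient.mk v)))
    rw [← map_smul, LinearEquiv.map_eq_zero_iff, ← map_smul, LinearEquiv.map_eq_zero_iff] at h1
    rw [← h1, ← algebraMap_smul (MvPowerSeries (Fin N) (PowerSeries k)) ((PowerSeries.X : PowerSeries k) ^ r), map_pow]
    rfl
  obtain ⟨hfinM, hrk, hrank⟩ := Pool.Agent.LibMC10.PQ_final P Q hP hm ε hε l hl (by rw [sp_GG P Q hP]; exact hG0) hfinN r hS'
    (hcore k hN P Q hP hm hQ l)
  have hle : (WM P Q hP (fun j z => MvPowerSeries.pderiv (PowerSeries k) j z) l ⊔ sTop P) ≤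
      (WN P Q hP (fun j z => MvPowerSeries.pderiv (PowerSeries k) j z) l ⊔ sTop P) :=
    sup_le_sup_right le_sup_left _
  rw [hrN, hrk]
  refine ⟨?_, ?_, hrank⟩
  · exact LinearMap.finrank_le_finrank_of_surjective
      (f := ((Submodule.factor hle).restrictScalars k)) (Submodule.factor_surjective hle)
  · rintro ⟨w, hw, hwt⟩
    have h1 := wh (P.map (sp k)) (Q.map (sp k)) (hP.map _) hm0 (fun j => sp k (l j)) hG hG0 w hw hwt
    rw [← hb, hWM] at h1
    have h2 : (WN P Q hP (fun j z => MvPowerSeries.pderiv (PowerSeries k) j z) l ⊔ sTop P) ≤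
        (WM P Q hP (fun j z => MvPowerSeries.pderiv (PowerSeries k) j z) l ⊔ sTop P) := by
      refine sup_le (sup_le le_sup_left ?_) le_sup_right
      rw [Submodule.span_le]
      rintro v ⟨b, rfl⟩
      have h3 := e0_sub_mem P Q hP hm b
      have h4 : e0 P b = (e0 P b - tau P hP b • e0 P (b0 P)) + tau P hP b • e0 P (b0 P) := by abel
      change e0 P b ∈ _
      rw [h4]
      exact Submodule.add_mem _ (Submodule.mem_sup_left (Submodule.mem_sup_left h3)) (Submodule.smul_mem _ _ h1)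
    rw [le_antisymm hle h2]

end Pool.Agent.LibMX10
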